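import Pool.Agent.Helper48.PW.Defs

set_option autoImplicit false

/-!
# The affine maps of a finite field are a pairwise uniform family
-/

namespace Pool.Agent.Helper48.PW

section
variable {F : Type} [Field F] [Fintype F] [DecidableEq F] {q : ℕ} (e : F ≃ Fin q)

/-- the relabelling `x ↦ a x + b` of the field elements, which are numbered by `e` -/
def aff (t : Fˣ × F) : Equiv.Perm (Fin q) :=
  e.permCongr ((Units.mulLeft t.1).trans (Equiv.addRight t.2))

theorem aff_apply (t : Fˣ × F) (x : Fin q) : aff e t x = e ((t.1 : F) * e.symm x + t.2) := rfl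

/-- all these relabellings -/
def affs : Finset (Equiv.Perm (Fin q)) := Finset.univ.image (aff e)

theorem aff_eq {t u : Fˣ × F} {x y : Fin q} (hxy : x ≠ y) (h1 : aff e t x = aff e u x)
    (h2 : aff e t y = aff e u y) : t = u := by
  rw [aff_apply, aff_apply, e.apply_eq_iff_eq] at h1 h2
  have h3 : e.symm x ≠ e.symm y := fun h => hxy (e.symm.injective h)
  have h4 : ((t.1 : F) - u.1) * (e.symm x - e.symm y) = 0 := by linear_combination h1 - h2
  have h5 : (t.1 : F) = u.1 := by
    rcases mul_eq_zero.1 h4 with h | h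
    · exact sub_eq_zero.1 h
    · exact absurd (sub_eq_zero.1 h) h3
  refine Prod.ext (Units.ext h5) ?_
  rw [h5] at h1
  exact add_left_cancel h1

theorem exists_aff {x y x' y' : Fin q} (hxy : x ≠ y) (hxy' : x' ≠ y') :
    ∃ t : Fˣ × F, aff e t x = x' ∧ aff e t y = y' := by
  have h3 : e.symm x - e.symm y ≠ 0 := fun h => hxy (e.symm.injective (sub_eq_zero.1 h))
  have h4 : e.symm x' - e.symm y' ≠ 0 := fun h => hxy' (e.symm.injective (sub_eq_zero.1 h))
  refine ⟨(Units.mk0 ((e.symm x' - e.symm y') / (e.symm x - e.symm y)) (div_ne_zero h4 h3),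
    e.symm x' - (e.symm x' - e.symm y') / (e.symm x - e.symm y) * e.symm x), ?_, ?_⟩
  · rw [aff_apply, ← e.eq_symm_apply]
    simp
  · rw [aff_apply, ← e.eq_symm_apply]
    simp only [Units.val_mk0]
    field_simp
    ring

theorem card_affs : (affs e).card = q * (q - 1) := by
  have hq : Fintype.card F = q := by rw [Fintype.card_congr e, Fintype.card_fin]
  unfold affs
  rw [Finset.card_image_of_injective, Finset.card_univ, Fintype.card_prod, Fintype.card_units, hq,
    mul_comm]
  intro t u h
  have h2 : (0 : F) ≠ 1 := zero_ne_one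
  exact aff_eq e (x := e 0) (y := e 1) (fun h3 => h2 (e.injective h3)) (by rw [h]) (by rw [h])

theorem uni2_affs : Uni2 (affs e) := by
  intro x y x' y' hxy hxy'
  obtain ⟨t, h1, h2⟩ := exists_aff e hxy hxy'
  have h3 : ((affs e).filter fun σ => σ x = x' ∧ σ y = y').card = 1 := by
    rw [Finset.card_eq_one]
    refine ⟨aff e t, ?_⟩
    rw [Finset.eq_singleton_iff_unique_mem]
    refine ⟨?_, ?_⟩
    · rw [Finset.mem_filter]
      exact ⟨Finset.mem_image.2 ⟨t, Finset.mem_univ _, rfl⟩, h1, h2⟩
    · intro σ hσ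
      rw [Finset.mem_filter] at hσ
      obtain ⟨hσ, h4, h5⟩ := hσ
      unfold affs at hσ
      obtain ⟨u, -, rfl⟩ := Finset.mem_image.1 hσ
      rw [aff_eq e hxy (h4.trans h1.symm) (h5.trans h2.symm)]
  rw [h3, card_affs, one_mul]

end

/-- **A pairwise uniform family of `q (q - 1)` relabellings for every prime power `q`.** -/
theorem exists_uni2 (p k : ℕ) (hp : p.Prime) (hk : k ≠ 0) :
    ∃ S : Finset (Equiv.Perm (Fin (p ^ k))), Uni2 S ∧ S.card = p ^ k * (p ^ k - 1) := by
  classical
  haveI : Fact p.Prime := ⟨hp⟩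
  haveI : Fintype (GaloisField p k) := Fintype.ofFinite _
  have hcard : Fintype.card (GaloisField p k) = p ^ k := by
    rw [Fintype.card_eq_nat_card]; exact GaloisField.card p k hk
  let e : GaloisField p k ≃ Fin (p ^ k) := Fintype.equivFinOfCardEq hcard
  exact ⟨affs e, uni2_affs e, card_affs e⟩

end Pool.Agent.Helper48.PW
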