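import Pool.Agent.Helper48.PW.Cnt
import Pool.Agent.N724.TW.Asm
import Pool.Agent.N724.TW.T_CNT

set_option autoImplicit false

/-!
# Splay trees and pairwise uniform relabellings: assembly
-/

namespace Pool.Agent.Helper48.PW

open Pool.Agent.H581R2.Splay Pool.Agent.TH49.Spl Pool.Agent.N724.TW Pool.Agent.Y395.SP

/-- the levels -/
def EE (n : ℕ) : Finset ℕ := (Finset.range n).filter fun e => 2 * 2 ^ e ≤ n

/-- number of distinct keys in a window of level `e` -/
def se (c n e : ℕ) : ℕ := c * (n / 2 ^ e + 1)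

/-- number of full nodes of level `e` -/
def Me (n e : ℕ) : ℕ := n / (2 * 2 ^ e)

theorem Me_pos {n e : ℕ} (he : e ∈ EE n) : 1 ≤ Me n e := by
  unfold EE at he
  rw [Finset.mem_filter] at he
  exact (Nat.one_le_div_iff (by positivity)).2 he.2

theorem se_le {c n e : ℕ} (he : e ∈ EE n) : se c n e ≤ 4 * c * Me n e := by
  have h1 := Me_pos he
  have h2 : n / 2 ^ e ≤ 2 * Me n e + 1 := by
    unfold Me
    rw [mul_comm 2 (2 ^ e), ← Nat.div_div_eq_div_mul]
    omega
  unfold se
  calc c * (n / 2 ^ e + 1) ≤ c * (4 * Me n e) := Nat.mul_le_mul_left _ (by omega)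
    _ = 4 * c * Me n e := by ring

theorem se_mul {c n e : ℕ} : c * n ≤ se c n e * 2 ^ e := by
  unfold se
  have h1 : n < (n / 2 ^ e + 1) * 2 ^ e := by
    have h2 := Nat.div_add_mod n (2 ^ e)
    have h3 := Nat.mod_lt n (show 0 < 2 ^ e by positivity)
    rw [add_mul, one_mul, mul_comm (n / 2 ^ e)]
    omega
  calc c * n ≤ c * ((n / 2 ^ e + 1) * 2 ^ e) := Nat.mul_le_mul_left _ h1.le
    _ = c * (n / 2 ^ e + 1) * 2 ^ e := by ring

theorem sum_div_le (a D : ℕ) : ∑ e ∈ Finset.range D, a / 2 ^ e ≤ 2 * a := by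
  have := Nat.geom_sum_le (le_refl 2) a D
  omega

theorem sum_se_le (c n : ℕ) : ∑ e ∈ EE n, se c n e ≤ 4 * c * n := by
  have h1 : ∀ e ∈ EE n, se c n e ≤ 2 * c * (n / 2 ^ e) := by
    intro e he
    unfold EE at he
    rw [Finset.mem_filter] at he
    have h2 : 1 ≤ n / 2 ^ e := by
      rw [Nat.one_le_div_iff (by positivity)]
      omega
    unfold se
    calc c * (n / 2 ^ e + 1) ≤ c * (2 * (n / 2 ^ e)) := Nat.mul_le_mul_left _ (by omega)
      _ = 2 * c * (n / 2 ^ e) := by ring
  calc ∑ e ∈ EE n, se c n e ≤ ∑ e ∈ EE n, 2 * c * (n / 2 ^ e) := Finset.sum_le_sum h1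
    _ ≤ ∑ e ∈ Finset.range n, 2 * c * (n / 2 ^ e) :=
        Finset.sum_le_sum_of_subset (Finset.filter_subset _ _)
    _ = 2 * c * ∑ e ∈ Finset.range n, n / 2 ^ e := by rw [Finset.mul_sum]
    _ ≤ 2 * c * (2 * n) := Nat.mul_le_mul_left _ (sum_div_le n n)
    _ = 4 * c * n := by ring

theorem sum_Me_le (n : ℕ) : ∑ e ∈ EE n, Me n e ≤ n := by
  calc ∑ e ∈ EE n, Me n e ≤ ∑ e ∈ Finset.range n, Me n e :=
        Finset.sum_le_sum_of_subset (Finset.filter_subset _ _)
    _ = ∑ e ∈ Finset.range n, (n / 2) / 2 ^ e := by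
        refine Finset.sum_congr rfl fun e _ => ?_
        unfold Me
        rw [Nat.div_div_eq_div_mul]
    _ ≤ 2 * (n / 2) := sum_div_le _ _
    _ ≤ n := by omega

theorem log_le_card (n : ℕ) : Real.logb 2 n ≤ (EE n).card + 1 := by
  rcases Nat.eq_zero_or_pos n with rfl | hn
  · simp only [CharP.cast_eq_zero, Real.logb_zero]
    positivity
  have h1 : Finset.range (Nat.log 2 n) ⊆ EE n := by
    intro e he
    rw [Finset.mem_range] at he
    have h2 : 2 ^ Nat.log 2 n ≤ n := Nat.pow_log_le_self 2 (by omega)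
    have h3 : Nat.log 2 n < 2 ^ Nat.log 2 n := Nat.lt_two_pow_self
    unfold EE
    rw [Finset.mem_filter, Finset.mem_range]
    refine ⟨by omega, ?_⟩
    calc 2 * 2 ^ e = 2 ^ (e + 1) := by ring
      _ ≤ 2 ^ Nat.log 2 n := Nat.pow_le_pow_right (by norm_num) (by omega)
      _ ≤ n := h2
  have h2 := Finset.card_le_card h1
  rw [Finset.card_range] at h2
  have h3 : Real.logb 2 n ≤ (Nat.log 2 n : ℝ) + 1 := by
    rw [Real.logb_le_iff_le_rpow (by norm_num) (by exact_mod_cast hn)]
    have h4 : n < 2 ^ (Nat.log 2 n + 1) := Nat.lt_pow_succ_log_self (by norm_num) _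
    have h5 : (2 : ℝ) ^ ((Nat.log 2 n : ℝ) + 1) = ((2 ^ (Nat.log 2 n + 1) : ℕ) : ℝ) := by
      rw [← Nat.cast_succ, Real.rpow_natCast]
      push_cast
      rfl
    rw [h5]
    exact_mod_cast h4.le
  have h4 : ((Nat.log 2 n : ℕ) : ℝ) ≤ ((EE n).card : ℝ) := by exact_mod_cast h2
  linarith

/-- number of levels for a working set number -/
theorem lev_le {n t : ℕ} (c : ℕ) (htn : t + 1 ≤ n) :
    Real.logb 2 (t + 1) ≤ ((EE n).filter fun e => se c n e ≤ t).card + (c + 2) := by
  obtain ⟨q, hq⟩ : ∃ q, q = Nat.log 2 (t + 1) := ⟨_, rfl⟩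
  obtain ⟨L, hL⟩ : ∃ L, L = Nat.log 2 n := ⟨_, rfl⟩
  have hq1 : 2 ^ q ≤ t + 1 := by
    rw [hq]
    exact Nat.pow_log_le_self 2 (by omega)
  have hq2 : t + 1 < 2 ^ (q + 1) := by
    rw [hq]
    exact Nat.lt_pow_succ_log_self (by norm_num) _
  have hL1 : 2 ^ L ≤ n := by
    rw [hL]
    exact Nat.pow_log_le_self 2 (by omega)
  have hL2 : n < 2 ^ (L + 1) := by
    rw [hL]
    exact Nat.lt_pow_succ_log_self (by norm_num) _
  have hqL : q ≤ L := by
    rw [hq, hL]
    exact Nat.log_mono_right htn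
  have hlog : Real.logb 2 (t + 1) ≤ (q : ℝ) + 1 := by
    rw [Real.logb_le_iff_le_rpow (by norm_num) (by positivity)]
    have h1 : ((t + 1 : ℕ) : ℝ) ≤ ((2 ^ (q + 1) : ℕ) : ℝ) := by exact_mod_cast hq2.le
    have h2 : (2 : ℝ) ^ ((q : ℝ) + 1) = ((2 ^ (q + 1) : ℕ) : ℝ) := by
      rw [← Nat.cast_succ, Real.rpow_natCast]
      push_cast
      rfl
    rw [h2]
    push_cast at h1 ⊢
    exact h1
  have hcard : q ≤ ((EE n).filter fun e => se c n e ≤ t).card + (c + 1) := by
    rcases Nat.lt_or_ge q (c + 2) with h | h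
    · omega
    have hsub : Finset.Ico (c + L + 1 - q) L ⊆ (EE n).filter fun e => se c n e ≤ t := by
      intro e he
      rw [Finset.mem_Ico] at he
      have hLn : L < n := by
        have : L < 2 ^ L := Nat.lt_two_pow_self
        omega
      have h4 : 2 * 2 ^ e = 2 ^ (e + 1) := by ring
      unfold EE
      rw [Finset.mem_filter, Finset.mem_filter, Finset.mem_range, h4]
      refine ⟨⟨by omega, ?_⟩, ?_⟩
      · exact le_trans (Nat.pow_le_pow_right (by norm_num) (by omega)) hL1
      · have h5 : n / 2 ^ e < 2 ^ (L + 1 - e) := by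
          rw [Nat.div_lt_iff_lt_mul (by positivity), ← pow_add]
          have : L + 1 - e + e = L + 1 := by omega
          rw [this]
          exact hL2
        have h6 : se c n e < 2 ^ c * 2 ^ (L + 1 - e) := by
          unfold se
          calc c * (n / 2 ^ e + 1) ≤ c * 2 ^ (L + 1 - e) := Nat.mul_le_mul_left _ h5
            _ < 2 ^ c * 2 ^ (L + 1 - e) :=
              Nat.mul_lt_mul_of_pos_right Nat.lt_two_pow_self (by positivity)
        have h7 : 2 ^ c * 2 ^ (L + 1 - e) ≤ 2 ^ q := by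
          rw [← pow_add]
          exact Nat.pow_le_pow_right (by norm_num) (by omega)
        omega
    have h7 := Finset.card_le_card hsub
    rw [Nat.card_Ico] at h7
    omega
  have hc : (q : ℝ) ≤ ((EE n).filter fun e => se c n e ≤ t).card + (c + 1) := by
    exact_mod_cast hcard
  linarith

theorem wsumF_le' {n : ℕ} (c : ℕ) (X : List (Fin n)) : ∀ h : List (Fin n),
    wsumF h X ≤ ((∑ e ∈ EE n, Ns (se c n e) h X : ℕ) : ℝ) + (c + 2) * X.length := by
  induction X with
  | nil => intro h; simp [wsumF, Ns]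
  | cons x X ih =>
    intro h
    simp only [wsumF, Ns, List.length_cons]
    have h1 := lev_le c (wsF_lt h x)
    have h2 := ih (x :: h)
    rw [Finset.sum_add_distrib, ← Finset.card_filter]
    push_cast at h2 ⊢
    linarith

/-- the working set bound in terms of `wsumF` -/
theorem cost_ws {n : ℕ} (hI : S_INV) {T : Tr} (hT : keys T = List.range n)
    (X : List (Fin n)) (ρ : Equiv.Perm (Fin n)) :
    (costSplay T (rel ρ X) : ℝ) ≤ 8 * X.length + 6 * wsumF [] X + 8 * (n * Real.logb 2 n) := by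
  rcases X with _ | ⟨x0, X0⟩
  · have h0 : costSplay T (rel ρ []) = 0 := by simp [rel, costSplay]
    rw [h0]
    have : 0 ≤ Real.logb 2 n := by
      rcases Nat.eq_zero_or_pos n with rfl | hn
      · simp
      · exact Real.logb_nonneg (by norm_num) (by exact_mod_cast hn)
    simp only [List.length_nil, wsumF]
    push_cast
    positivity
  · have hn : T ≠ Tr.nil := by
      rintro rfl
      have h1 : (keys Tr.nil).length = (List.range n).length := by rw [hT]
      simp only [keys, List.length_nil, List.length_range] at h1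
      exact absurd x0.2 (by omega)
    have h1 := ws_holds T (rel ρ (x0 :: X0)) (bst_range hT) hn (fun x hx => by
      rw [hT, List.mem_range]; exact rel_mem ρ _ x hx)
    rw [hI n ρ (x0 :: X0), hT, List.length_range] at h1
    have h3 : (rel ρ (x0 :: X0)).length = (x0 :: X0).length := by simp [rel]
    rw [h3] at h1
    linarith

/-- the interleave bound for the optimum -/
theorem alt_opt (hV : S_VAL) {n : ℕ} {T : Tr} (hT : keys T = List.range n)
    (σ : Equiv.Perm (Fin n)) (X : List (Fin n)) :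
    (alt n (rel σ X) : ℝ) ≤ 2 * optAny (List.range n) (rel σ X) := by
  have h1 : ((alt n (rel σ X) : ℝ)) / 2 ≤ (optAny (List.range n) (rel σ X) : ℝ) := by
    refine optAny_ge hT fun T' c hT' hE => ?_
    have h2 := hV T' (rel σ X) c n (bst_range hT') (fun x hx => by
      rw [hT', List.mem_range]; exact rel_mem σ X x hx) hE
    have h4 : ((alt n (rel σ X) : ℕ) : ℝ) ≤ ((2 * c : ℕ) : ℝ) := by exact_mod_cast h2
    push_cast at h4
    linarith
  linarith

section main

variable {n : ℕ} (P : ℕ → List (List (Fin n) × List (Fin n)))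

open Classical in
/-- number of the hits -/
noncomputable def HH (σ : Equiv.Perm (Fin n)) : ℕ := ∑ e ∈ EE n, ∑ i ∈ Finset.range (Me n e),
  ((P e).map fun p => if HitP σ (i * (2 * 2 ^ e)) (i * (2 * 2 ^ e) + 2 ^ e)
    ((i + 1) * (2 * 2 ^ e)) p then 1 else 0).sum

open Classical in
/-- number of the misses -/
noncomputable def MM (σ : Equiv.Perm (Fin n)) : ℕ := ∑ e ∈ EE n, ∑ i ∈ Finset.range (Me n e),
  ((P e).map fun p => if ¬ HitP σ (i * (2 * 2 ^ e)) (i * (2 * 2 ^ e) + 2 ^ e)
    ((i + 1) * (2 * 2 ^ e)) p then 1 else 0).sum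

/-- number of all (node, pair) -/
def Pot : ℕ := ∑ e ∈ EE n, Me n e * (P e).length

theorem sum_ite_add {α : Type*} (L : List α) (Q : α → Prop) [DecidablePred Q] :
    (L.map fun p => if Q p then 1 else 0).sum + (L.map fun p => if ¬ Q p then 1 else 0).sum =
      L.length := by
  induction L with
  | nil => simp
  | cons a L ih =>
    simp only [List.map_cons, List.sum_cons, List.length_cons]
    by_cases h : Q a
    · simp only [h, if_true, not_true_eq_false, if_false]
      omega
    · simp only [h, if_false, not_false_eq_true, if_true]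
      omega

theorem HH_add_MM (σ : Equiv.Perm (Fin n)) : HH P σ + MM P σ = Pot P := by
  classical
  unfold HH MM Pot
  rw [← Finset.sum_add_distrib]
  refine Finset.sum_congr rfl fun e _ => ?_
  rw [← Finset.sum_add_distrib]
  have : ∀ i ∈ Finset.range (Me n e), _ = (P e).length := fun i _ =>
    sum_ite_add (P e) (fun p => HitP σ (i * (2 * 2 ^ e)) (i * (2 * 2 ^ e) + 2 ^ e)
      ((i + 1) * (2 * 2 ^ e)) p)
  rw [Finset.sum_congr rfl this, Finset.sum_const, Finset.card_range, smul_eq_mul]

theorem node_le {e i : ℕ} (hi : i < Me n e) : (i + 1) * (2 * 2 ^ e) ≤ n := by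
  unfold Me at hi
  exact (Nat.mul_le_mul_right _ hi).trans (Nat.div_mul_le_self n (2 * 2 ^ e))

theorem HH_le_alt (σ : Equiv.Perm (Fin n)) (X : List (Fin n)) (R : ℕ → List (Fin n))
    (hX : ∀ e ∈ EE n, X = cc (P e) ++ R e) : HH P σ ≤ alt n (rel σ X) := by
  classical
  unfold HH alt
  refine (Finset.sum_le_sum fun e he => ?_).trans
    (Finset.sum_le_sum_of_subset (f := fun e => ∑ i ∈ Finset.range (2 ^ (n - 1 - e)),
      cnt (i * (2 * 2 ^ e)) (i * (2 * 2 ^ e) + 2 ^ e) ((i + 1) * (2 * 2 ^ e)) false (rel σ X))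
      (Finset.filter_subset _ _))
  have hen : e < n := by
    unfold EE at he
    exact Finset.mem_range.1 (Finset.mem_filter.1 he).1
  refine (Finset.sum_le_sum fun i hi => ?_).trans
    (Finset.sum_le_sum_of_subset (f := fun i =>
      cnt (i * (2 * 2 ^ e)) (i * (2 * 2 ^ e) + 2 ^ e) ((i + 1) * (2 * 2 ^ e)) false (rel σ X)) ?_)
  · have := hit_le_cnt σ (i * (2 * 2 ^ e)) (i * (2 * 2 ^ e) + 2 ^ e) ((i + 1) * (2 * 2 ^ e))
      (R e) (P e) false
    rw [← hX e he] at this
    exact this
  · intro i hi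
    rw [Finset.mem_range] at hi ⊢
    exact CNT.bound hen (node_le hi)

theorem sum_list_comm {α β : Type*} (S : Finset α) (L : List β) (f : α → β → ℕ) :
    ∑ a ∈ S, (L.map fun b => f a b).sum = (L.map fun b => ∑ a ∈ S, f a b).sum := by
  induction L with
  | nil => simp
  | cons b L ih => simp only [List.map_cons, List.sum_cons, Finset.sum_add_distrib, ih]

theorem sum_MM {S : Finset (Equiv.Perm (Fin n))} (hS : Uni2 S) (hn : 2 ≤ n) (c : ℕ) (hc : 1 ≤ c)
    (hP : ∀ e ∈ EE n, ∀ p ∈ P e, p.1.toFinset.card = se c n e ∧ p.2.toFinset.card = se c n e) :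
    c * ∑ σ ∈ S, MM P σ ≤ 2 * S.card * Pot P := by
  classical
  unfold MM Pot
  rw [Finset.sum_comm, Finset.mul_sum, Finset.mul_sum]
  refine Finset.sum_le_sum fun e he => ?_
  rw [Finset.sum_comm, Finset.mul_sum]
  have h1 : ∀ i ∈ Finset.range (Me n e), c * ∑ σ ∈ S, ((P e).map fun p =>
      if ¬ HitP σ (i * (2 * 2 ^ e)) (i * (2 * 2 ^ e) + 2 ^ e) ((i + 1) * (2 * 2 ^ e)) p
        then 1 else 0).sum ≤ 2 * S.card * (P e).length := by
    intro i hi
    rw [Finset.mem_range] at hi
    rw [sum_list_comm]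
    have h2 : ∀ L : List (List (Fin n) × List (Fin n)), (∀ p ∈ L, p.1.toFinset.card = se c n e ∧
        p.2.toFinset.card = se c n e) → c * (L.map fun p => ∑ σ ∈ S,
          if ¬ HitP σ (i * (2 * 2 ^ e)) (i * (2 * 2 ^ e) + 2 ^ e) ((i + 1) * (2 * 2 ^ e)) p
            then 1 else 0).sum ≤ 2 * S.card * L.length := by
      intro L
      induction L with
      | nil => intro _; simp
      | cons p L ih =>
        intro hL
        have g1 := ih fun q hq => hL q (List.mem_cons_of_mem _ hq)
        obtain ⟨g2, g3⟩ := hL p (by simp)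
        have g4 := miss_pair hS hn c hc (l := i * (2 * 2 ^ e)) (m := i * (2 * 2 ^ e) + 2 ^ e)
          (r := (i + 1) * (2 * 2 ^ e)) (k := 2 ^ e) (s := se c n e) rfl (by ring) (node_le hi)
          se_mul p g2 g3
        rw [List.map_cons, List.sum_cons, List.length_cons, mul_add, mul_add, mul_one,
          ← Finset.card_filter, add_comm (2 * S.card * L.length)]
        exact Nat.add_le_add g4 g1
    exact h2 (P e) (hP e he)
  refine (Finset.sum_le_sum h1).trans ?_
  rw [Finset.sum_const, Finset.card_range, smul_eq_mul]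
  exact le_of_eq (by ring)

open Classical in
/-- the bad relabellings -/
noncomputable def Bad (S : Finset (Equiv.Perm (Fin n))) : Finset (Equiv.Perm (Fin n)) :=
  S.filter fun σ => Pot P < 2 * MM P σ

theorem card_Bad {S : Finset (Equiv.Perm (Fin n))} (hS : Uni2 S) (c : ℕ) (hc : 1 ≤ c)
    (hP : ∀ e ∈ EE n, ∀ p ∈ P e, p.1.toFinset.card = se c n e ∧ p.2.toFinset.card = se c n e) :
    c * (Bad P S).card ≤ 4 * S.card := by
  classical
  rcases Nat.eq_zero_or_pos (Pot P) with h0 | h0
  · have : Bad P S = ∅ := by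
      unfold Bad
      rw [Finset.filter_eq_empty_iff]
      intro σ _
      have := HH_add_MM P σ
      omega
    rw [this]
    simp
  · have hn : 2 ≤ n := by
      by_contra hcon
      have h1 : EE n = ∅ := by
        unfold EE
        rw [Finset.filter_eq_empty_iff]
        intro e _
        have : 1 ≤ 2 ^ e := Nat.one_le_two_pow
        omega
      unfold Pot at h0
      rw [h1] at h0
      simp at h0
    have h1 := sum_MM P hS hn c hc hP
    have h2 : (Bad P S).card * Pot P ≤ 2 * ∑ σ ∈ S, MM P σ := by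
      calc (Bad P S).card * Pot P = ∑ σ ∈ Bad P S, Pot P := by
            rw [Finset.sum_const, smul_eq_mul]
        _ ≤ ∑ σ ∈ Bad P S, 2 * MM P σ := by
            refine Finset.sum_le_sum fun σ hσ => ?_
            unfold Bad at hσ
            exact (Finset.mem_filter.1 hσ).2.le
        _ ≤ ∑ σ ∈ S, 2 * MM P σ := Finset.sum_le_sum_of_subset (Finset.filter_subset _ _)
        _ = 2 * ∑ σ ∈ S, MM P σ := by rw [Finset.mul_sum]
    have h3 : (c * (Bad P S).card) * Pot P ≤ (4 * S.card) * Pot P := by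
      calc (c * (Bad P S).card) * Pot P = c * ((Bad P S).card * Pot P) := by ring
        _ ≤ c * (2 * ∑ σ ∈ S, MM P σ) := Nat.mul_le_mul_left _ h2
        _ = 2 * (c * ∑ σ ∈ S, MM P σ) := by ring
        _ ≤ 2 * (2 * S.card * Pot P) := Nat.mul_le_mul_left _ h1
        _ = _ := by ring
    exact Nat.le_of_mul_le_mul_right h3 h0

end main

/-- **All but a proportion `4 / c` of the relabellings.** -/
theorem main_c (hV : S_VAL) (hI : S_INV) {n : ℕ} (S : Finset (Equiv.Perm (Fin n))) (hS : Uni2 S)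
    (c : ℕ) (hc : 1 ≤ c) (X : List (Fin n)) :
    ∃ B : Finset (Equiv.Perm (Fin n)), B ⊆ S ∧ c * B.card ≤ 4 * S.card ∧
      ∀ σ ∈ S, σ ∉ B → ∀ (ρ : Equiv.Perm (Fin n)) (T : Tr), keys T = List.range n →
        (costSplay T (rel ρ X) : ℝ) ≤ 218 * c * optAny (List.range n) (rel σ X) +
          56 * c * (n * Real.logb 2 n) ∧
        ((∀ x : Fin n, x ∈ X) → (costSplay T (rel ρ X) : ℝ) ≤
          594 * c * optAny (List.range n) (rel σ X)) ∧
        wsumF [] X ≤ 35 * c * optAny (List.range n) (rel σ X) + 8 * c * (n * Real.logb 2 n) := by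
  classical
  have hpairs : ∀ e : ℕ, ∃ (P : List (List (Fin n) × List (Fin n))) (R : List (Fin n)),
      X = cc P ++ R ∧ (∀ p ∈ P, p.1.toFinset.card = se c n e ∧ p.2.toFinset.card = se c n e) ∧
      (∀ h, Ns (se c n e) h X ≤ 2 * se c n e * (P.length + 1)) ∧
      X.toFinset.card ≤ 2 * se c n e * (P.length + 1) := fun e =>
    pairs (se c n e) (by unfold se; exact Nat.mul_pos hc (Nat.succ_pos _)) X.length X le_rfl
  choose P R hX hP hN hF using hpairs
  refine ⟨Bad P S, Finset.filter_subset _ _, card_Bad P hS c hc (fun e _ => hP e), ?_⟩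
  intro σ hσ hσB ρ T hT
  have hcR : (1 : ℝ) ≤ c := by exact_mod_cast hc
  have h1 : Pot P ≤ 2 * HH P σ := by
    have := HH_add_MM P σ
    unfold Bad at hσB
    rw [Finset.mem_filter, not_and] at hσB
    have := hσB hσ
    omega
  have h2 := HH_le_alt P σ X R (fun e _ => hX e)
  have h3 := alt_opt hV hT σ X
  have h4 := opt_len hT σ X
  have hPot : (Pot P : ℝ) ≤ 4 * optAny (List.range n) (rel σ X) := by
    have : ((Pot P : ℕ) : ℝ) ≤ ((2 * alt n (rel σ X) : ℕ) : ℝ) := by
      exact_mod_cast h1.trans (Nat.mul_le_mul_left 2 h2)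
    push_cast at this
    linarith
  have h5 : ∑ e ∈ EE n, Ns (se c n e) [] X ≤ 8 * c * Pot P + 2 * ∑ e ∈ EE n, se c n e := by
    calc ∑ e ∈ EE n, Ns (se c n e) [] X ≤
        ∑ e ∈ EE n, (8 * c * (Me n e * (P e).length) + 2 * se c n e) := by
          refine Finset.sum_le_sum fun e he => (hN e []).trans ?_
          have := Nat.mul_le_mul_right (2 * (P e).length) (se_le (c := c) he)
          calc 2 * se c n e * ((P e).length + 1) =
              se c n e * (2 * (P e).length) + 2 * se c n e := by ring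
            _ ≤ 4 * c * Me n e * (2 * (P e).length) + 2 * se c n e := Nat.add_le_add_right this _
            _ = _ := by ring
      _ = _ := by
          rw [Finset.sum_add_distrib, ← Finset.mul_sum, ← Finset.mul_sum]
          rfl
  have h6 := wsumF_le' c X []
  have h7 := cost_ws hI hT X ρ
  have hlog0 : 0 ≤ Real.logb 2 n := by
    rcases Nat.eq_zero_or_pos n with rfl | hn
    · simp
    · exact Real.logb_nonneg (by norm_num) (by exact_mod_cast hn)
  have hnlog : ((∑ e ∈ EE n, se c n e : ℕ) : ℝ) ≤ 4 * c * (n * Real.logb 2 n) := by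
    rcases Nat.lt_or_ge n 2 with hn | hn
    · have h1 : EE n = ∅ := by
        unfold EE
        rw [Finset.filter_eq_empty_iff]
        intro e _
        have : 1 ≤ 2 ^ e := Nat.one_le_two_pow
        omega
      rw [h1, Finset.sum_empty]
      push_cast
      positivity
    · have h8 : ((∑ e ∈ EE n, se c n e : ℕ) : ℝ) ≤ 4 * c * n := by
        exact_mod_cast sum_se_le c n
      have h9 : (1 : ℝ) ≤ Real.logb 2 n := by
        rw [Real.le_logb_iff_rpow_le (by norm_num) (by positivity)]
        simpa using (by exact_mod_cast hn : (2 : ℝ) ≤ n)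
      have h10 : (n : ℝ) ≤ n * Real.logb 2 n := by nlinarith [(Nat.cast_nonneg n : (0 : ℝ) ≤ n)]
      have h12 : (4 * c : ℝ) * n ≤ 4 * c * (n * Real.logb 2 n) :=
        mul_le_mul_of_nonneg_left h10 (by positivity)
      linarith
  have h5R : ((∑ e ∈ EE n, Ns (se c n e) [] X : ℕ) : ℝ) ≤
      8 * c * Pot P + 2 * ((∑ e ∈ EE n, se c n e : ℕ) : ℝ) := by exact_mod_cast h5
  have hOPT : (0 : ℝ) ≤ optAny (List.range n) (rel σ X) := Nat.cast_nonneg _
  have hlen : (0 : ℝ) ≤ X.length := Nat.cast_nonneg _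
  have f1 : (c : ℝ) * Pot P ≤ c * (4 * optAny (List.range n) (rel σ X)) :=
    mul_le_mul_of_nonneg_left hPot (by positivity)
  have f2 : (c : ℝ) * X.length ≤ c * optAny (List.range n) (rel σ X) :=
    mul_le_mul_of_nonneg_left h4 (by positivity)
  have f3 : (optAny (List.range n) (rel σ X) : ℝ) ≤ c * optAny (List.range n) (rel σ X) := by
    nlinarith
  have f4 : 0 ≤ n * Real.logb 2 n := by positivity
  have f5 : n * Real.logb 2 n ≤ c * (n * Real.logb 2 n) := by nlinarith
  refine ⟨?_, ?_, ?_⟩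
  · nlinarith
  · intro hall
    have hcard : X.toFinset.card = n := by
      have : X.toFinset = Finset.univ := by
        ext x
        simp [hall x]
      rw [this, Finset.card_univ, Fintype.card_fin]
    have hnlen : (n : ℝ) ≤ X.length := by
      have := List.toFinset_card_le X
      rw [hcard] at this
      exact_mod_cast this
    have h8 : (EE n).card * n ≤ 8 * c * Pot P + 8 * c * n := by
      calc (EE n).card * n = ∑ e ∈ EE n, n := by rw [Finset.sum_const, smul_eq_mul]
        _ ≤ ∑ e ∈ EE n, (8 * c * (Me n e * (P e).length) + 8 * c * Me n e) := by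
            refine Finset.sum_le_sum fun e he => ?_
            have g1 := hF e
            rw [hcard] at g1
            refine g1.trans ?_
            have := Nat.mul_le_mul_right (2 * ((P e).length + 1)) (se_le (c := c) he)
            calc 2 * se c n e * ((P e).length + 1) = se c n e * (2 * ((P e).length + 1)) := by ring
              _ ≤ 4 * c * Me n e * (2 * ((P e).length + 1)) := this
              _ = _ := by ring
        _ = 8 * c * Pot P + 8 * c * ∑ e ∈ EE n, Me n e := by
            rw [Finset.sum_add_distrib, ← Finset.mul_sum, ← Finset.mul_sum]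
            rfl
        _ ≤ 8 * c * Pot P + 8 * c * n :=
            Nat.add_le_add_left (Nat.mul_le_mul_left _ (sum_Me_le n)) _
    have h8R : ((EE n).card : ℝ) * n ≤ 8 * c * Pot P + 8 * c * n := by exact_mod_cast h8
    have h9 := log_le_card n
    have h10 : (n : ℝ) * Real.logb 2 n ≤ n * ((EE n).card + 1) :=
      mul_le_mul_of_nonneg_left h9 (by positivity)
    have h11 : ((∑ e ∈ EE n, se c n e : ℕ) : ℝ) ≤ 4 * c * n := by
      exact_mod_cast sum_se_le c n
    have e4 : (c : ℝ) * n ≤ c * optAny (List.range n) (rel σ X) :=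
      mul_le_mul_of_nonneg_left (hnlen.trans h4) (by positivity)
    nlinarith
  · nlinarith

/-- **All but a proportion `δ` of the relabellings.** -/
theorem main_delta (hV : S_VAL) (hI : S_INV) {n : ℕ} (S : Finset (Equiv.Perm (Fin n)))
    (hS : Uni2 S) (δ : ℝ) (hδ : 0 < δ) (hδ1 : δ ≤ 1) (X : List (Fin n)) :
    ∃ B : Finset (Equiv.Perm (Fin n)), B ⊆ S ∧ (B.card : ℝ) ≤ δ * S.card ∧
      ∀ σ ∈ S, σ ∉ B → ∀ (ρ : Equiv.Perm (Fin n)) (T : Tr), keys T = List.range n →
        (costSplay T (rel ρ X) : ℝ) ≤ (1090 * optAny (List.range n) (rel σ X) +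
          280 * (n * Real.logb 2 n)) / δ ∧
        ((∀ x : Fin n, x ∈ X) → (costSplay T (rel ρ X) : ℝ) ≤
          2970 / δ * optAny (List.range n) (rel σ X)) := by
  obtain ⟨c, hc⟩ : ∃ c : ℕ, c = ⌈4 / δ⌉₊ := ⟨_, rfl⟩
  have h1 : 4 / δ ≤ c := by rw [hc]; exact Nat.le_ceil _
  have h2 : (c : ℝ) < 4 / δ + 1 := by rw [hc]; exact Nat.ceil_lt_add_one (by positivity)
  have h3 : (1 : ℝ) ≤ 1 / δ := by rw [le_div_iff₀ hδ]; linarith
  have h4 : (c : ℝ) ≤ 5 / δ := by
    have : 5 / δ = 4 / δ + 1 / δ := by ring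
    linarith
  have h5 : 1 ≤ c := by
    have h6 : (1 : ℝ) ≤ c := by
      have : 4 / δ = 4 * (1 / δ) := by ring
      linarith
    exact_mod_cast h6
  obtain ⟨B, b1, b2, b3⟩ := main_c hV hI S hS c h5 X
  refine ⟨B, b1, ?_, fun σ hσ hσB ρ T hT => ?_⟩
  · have h6 : (c : ℝ) * B.card ≤ 4 * S.card := by exact_mod_cast b2
    have h7 : 4 / δ * B.card ≤ 4 * S.card :=
      (mul_le_mul_of_nonneg_right h1 (Nat.cast_nonneg _)).trans h6
    have h8 : 4 / δ * (B.card : ℝ) = 4 * (B.card / δ) := by ring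
    rw [h8] at h7
    have h9 : (B.card : ℝ) / δ ≤ S.card := by linarith
    rw [div_le_iff₀ hδ] at h9
    linarith
  · obtain ⟨g1, g2, -⟩ := b3 σ hσ hσB ρ T hT
    have hlog0 : 0 ≤ Real.logb 2 n := by
      rcases Nat.eq_zero_or_pos n with rfl | hn
      · simp
      · exact Real.logb_nonneg (by norm_num) (by exact_mod_cast hn)
    have hnl : 0 ≤ n * Real.logb 2 n := by positivity
    have hO : (0 : ℝ) ≤ optAny (List.range n) (rel σ X) := Nat.cast_nonneg _
    constructor
    · refine g1.trans ?_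
      have e1 := mul_le_mul_of_nonneg_right h4 hO
      have e2 := mul_le_mul_of_nonneg_right h4 hnl
      have e3 : (1090 * (optAny (List.range n) (rel σ X) : ℝ) + 280 * (n * Real.logb 2 n)) / δ =
          218 * (5 / δ * optAny (List.range n) (rel σ X)) + 56 * (5 / δ * (n * Real.logb 2 n)) := by
        ring
      rw [e3]
      linarith
    · intro hall
      refine (g2 hall).trans ?_
      have e1 := mul_le_mul_of_nonneg_right h4 hO
      have e3 : 2970 / δ * (optAny (List.range n) (rel σ X) : ℝ) =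
          594 * (5 / δ * optAny (List.range n) (rel σ X)) := by
        ring
      rw [e3]
      linarith

end Pool.Agent.Helper48.PW
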