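import Pool.Agent.Helper48.PW.Defs

set_option autoImplicit false

/-!
# A set of keys meets a set of places under most members of a pairwise uniform family
-/

namespace Pool.Agent.Helper48.PW

variable {n : ℕ}

theorem Uni2.uni1 {S : Finset (Equiv.Perm (Fin n))} (hS : Uni2 S) (hn : 2 ≤ n) : Uni1 S := by
  classical
  intro a a'
  obtain ⟨b, hb⟩ : ∃ b : Fin n, a ≠ b := by
    have : 1 < Fintype.card (Fin n) := by simp; omega
    obtain ⟨b, hb⟩ := Fintype.exists_ne_of_one_lt_card this a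
    exact ⟨b, hb.symm⟩
  have h1 : (S.filter fun σ => σ a = a').card =
      ∑ b' ∈ (Finset.univ.erase a'), (S.filter fun σ => σ a = a' ∧ σ b = b').card := by
    rw [← Finset.card_biUnion]
    · congr 1
      ext σ
      simp only [Finset.mem_filter, Finset.mem_biUnion, Finset.mem_erase, Finset.mem_univ, and_true]
      constructor
      · rintro ⟨h1, h2⟩
        refine ⟨σ b, ?_, h1, h2, rfl⟩
        rw [← h2]
        exact fun h => hb (σ.injective h).symm
      · rintro ⟨b', -, h1, h2, -⟩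
        exact ⟨h1, h2⟩
    · intro x _ y _ hxy
      rw [Function.onFun, Finset.disjoint_left]
      intro σ h1 h2
      rw [Finset.mem_filter] at h1 h2
      exact hxy (h1.2.2.symm.trans h2.2.2)
  have h2 : (S.filter fun σ => σ a = a').card * (n * (n - 1)) = (n - 1) * S.card := by
    rw [h1, Finset.sum_mul]
    rw [Finset.sum_congr rfl (g := fun _ => S.card) (fun b' hb' => ?_)]
    · rw [Finset.sum_const, smul_eq_mul, Finset.card_erase_of_mem (Finset.mem_univ _),
        Finset.card_univ, Fintype.card_fin]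
    · exact hS a b a' b' hb (Finset.ne_of_mem_erase hb').symm
  have h3 : (n - 1) * ((S.filter fun σ => σ a = a').card * n) = (n - 1) * S.card := by
    rw [← h2]; ring
  exact Nat.eq_of_mul_eq_mul_left (by omega) h3

open Classical in
/-- number of the keys of `Q` at a place of `J` -/
noncomputable def ZJ (Q J : Finset (Fin n)) (σ : Equiv.Perm (Fin n)) : ℕ :=
  (Q.filter fun q => σ q ∈ J).card

open Classical in
theorem card1 {S : Finset (Equiv.Perm (Fin n))} (hS : Uni1 S) (q : Fin n) (J : Finset (Fin n)) :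
    (S.filter fun σ => σ q ∈ J).card * n = S.card * J.card := by
  have h1 : (S.filter fun σ => σ q ∈ J).card = ∑ j ∈ J, (S.filter fun σ => σ q = j).card := by
    rw [← Finset.card_biUnion]
    · congr 1
      ext σ
      simp only [Finset.mem_filter, Finset.mem_biUnion]
      constructor
      · rintro ⟨h1, h2⟩
        exact ⟨σ q, h2, h1, rfl⟩
      · rintro ⟨j, h1, h2, rfl⟩
        exact ⟨h2, h1⟩
    · intro x _ y _ hxy
      rw [Function.onFun, Finset.disjoint_left]
      intro σ h1 h2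
      rw [Finset.mem_filter] at h1 h2
      exact hxy (h1.2.symm.trans h2.2)
  rw [h1, Finset.sum_mul, Finset.sum_congr rfl (fun j _ => hS q j), Finset.sum_const, smul_eq_mul,
    mul_comm]

open Classical in
theorem card2 {S : Finset (Equiv.Perm (Fin n))} (hS : Uni2 S) {q q' : Fin n} (hq : q ≠ q')
    (J : Finset (Fin n)) :
    (S.filter fun σ => σ q ∈ J ∧ σ q' ∈ J).card * (n * (n - 1)) =
      S.card * (J.card * (J.card - 1)) := by
  have h1 : (S.filter fun σ => σ q ∈ J ∧ σ q' ∈ J).card =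
      ∑ p ∈ J.offDiag, (S.filter fun σ => σ q = p.1 ∧ σ q' = p.2).card := by
    rw [← Finset.card_biUnion]
    · congr 1
      ext σ
      simp only [Finset.mem_filter, Finset.mem_biUnion, Finset.mem_offDiag]
      constructor
      · rintro ⟨h1, h2, h3⟩
        exact ⟨(σ q, σ q'), ⟨h2, h3, fun h => hq (σ.injective h)⟩, h1, rfl, rfl⟩
      · rintro ⟨p, ⟨h1, h2, h3⟩, h4, h5, h6⟩
        rw [h5, h6]
        exact ⟨h4, h1, h2⟩
    · intro x _ y _ hxy
      rw [Function.onFun, Finset.disjoint_left]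
      intro σ h1 h2
      rw [Finset.mem_filter] at h1 h2
      exact hxy (Prod.ext (h1.2.1.symm.trans h2.2.1) (h1.2.2.symm.trans h2.2.2))
  rw [h1, Finset.sum_mul, Finset.sum_congr rfl (g := fun _ => S.card) (fun p hp => ?_),
    Finset.sum_const, smul_eq_mul, Finset.offDiag_card, mul_comm]
  · congr 1
    rw [Nat.mul_sub, mul_one]
  · exact hS q q' p.1 p.2 hq (Finset.mem_offDiag.1 hp).2.2

open Classical in
theorem sum_ZJ {S : Finset (Equiv.Perm (Fin n))} (hS : Uni1 S) (Q J : Finset (Fin n)) :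
    (∑ σ ∈ S, ZJ Q J σ) * n = S.card * (Q.card * J.card) := by
  have h1 : ∑ σ ∈ S, ZJ Q J σ = ∑ q ∈ Q, (S.filter fun σ => σ q ∈ J).card := by
    unfold ZJ
    simp only [Finset.card_filter]
    exact Finset.sum_comm
  rw [h1, Finset.sum_mul, Finset.sum_congr rfl (fun q _ => card1 hS q J), Finset.sum_const,
    smul_eq_mul]
  ring

open Classical in
theorem sum_ZJ_sq {S : Finset (Equiv.Perm (Fin n))} (hS : Uni2 S) (hn : 2 ≤ n)
    (Q J : Finset (Fin n)) :
    (∑ σ ∈ S, ZJ Q J σ ^ 2) * (n * (n - 1)) = (n - 1) * (S.card * (Q.card * J.card)) +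
      S.card * (Q.card * (Q.card - 1)) * (J.card * (J.card - 1)) := by
  have h0 : ∀ σ : Equiv.Perm (Fin n), ZJ Q J σ ^ 2 =
      ∑ q ∈ Q, (if σ q ∈ J then 1 else 0) +
        ∑ p ∈ Q.offDiag, (if σ p.1 ∈ J ∧ σ p.2 ∈ J then 1 else 0) := by
    intro σ
    unfold ZJ
    rw [Finset.card_filter, sq, Finset.sum_mul_sum]
    rw [← Finset.sum_product']
    rw [← Finset.sum_filter_add_sum_filter_not (Q ×ˢ Q) (fun p => p.1 = p.2)]
    congr 1
    · refine Finset.sum_nbij' (fun p => p.1) (fun q => (q, q)) ?_ ?_ ?_ ?_ ?_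
      · intro p hp
        simp only [Finset.mem_filter, Finset.mem_product] at hp
        exact hp.1.1
      · intro q hq
        simp [hq]
      · intro p hp
        simp only [Finset.mem_filter, Finset.mem_product] at hp
        exact Prod.ext rfl hp.2
      · intro q _
        rfl
      · intro p hp
        simp only [Finset.mem_filter, Finset.mem_product] at hp
        rw [← hp.2]
        by_cases h : σ p.1 ∈ J <;> simp [h]
    · refine Finset.sum_congr ?_ ?_
      · ext p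
        simp only [Finset.mem_filter, Finset.mem_product, Finset.mem_offDiag]
        tauto
      · intro p _
        by_cases h : σ p.1 ∈ J <;> by_cases h' : σ p.2 ∈ J <;> simp [h, h']
  have h1 : ∑ σ ∈ S, ZJ Q J σ ^ 2 = ∑ σ ∈ S, ZJ Q J σ +
      ∑ p ∈ Q.offDiag, (S.filter fun σ => σ p.1 ∈ J ∧ σ p.2 ∈ J).card := by
    rw [Finset.sum_congr rfl (fun σ _ => h0 σ), Finset.sum_add_distrib]
    congr 1
    · refine Finset.sum_congr rfl fun σ _ => ?_
      unfold ZJ
      rw [Finset.card_filter]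
    · rw [Finset.sum_comm]
      refine Finset.sum_congr rfl fun p _ => ?_
      rw [Finset.card_filter]
  rw [h1, add_mul]
  congr 1
  · have := sum_ZJ (hS.uni1 hn) Q J
    calc (∑ σ ∈ S, ZJ Q J σ) * (n * (n - 1)) = (n - 1) * ((∑ σ ∈ S, ZJ Q J σ) * n) := by ring
      _ = _ := by rw [this]
  · rw [Finset.sum_mul, Finset.sum_congr rfl (g := fun _ => S.card * (J.card * (J.card - 1)))
      (fun p hp => card2 hS (Finset.mem_offDiag.1 hp).2.2 J), Finset.sum_const, smul_eq_mul,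
      Finset.offDiag_card]
    have : Q.card * Q.card - Q.card = Q.card * (Q.card - 1) := by rw [Nat.mul_sub, mul_one]
    rw [this]
    ring

open Classical in
/-- **Few misses.** -/
theorem miss {S : Finset (Equiv.Perm (Fin n))} (hS : Uni2 S) (hn : 2 ≤ n)
    (Q J : Finset (Fin n)) (c : ℕ) (hc : 1 ≤ c) (h : c * n ≤ Q.card * J.card) :
    c * (S.filter fun σ => ∀ q ∈ Q, σ q ∉ J).card ≤ S.card := by
  set B := S.filter fun σ => ∀ q ∈ Q, σ q ∉ J with hB
  obtain ⟨N, hN⟩ : ∃ N : ℝ, N = (S.card : ℝ) := ⟨_, rfl⟩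
  obtain ⟨s, hs⟩ : ∃ s : ℝ, s = (Q.card : ℝ) := ⟨_, rfl⟩
  obtain ⟨k, hk⟩ : ∃ k : ℝ, k = (J.card : ℝ) := ⟨_, rfl⟩
  have hn0 : (0 : ℝ) < n := by positivity
  have hn1 : (0 : ℝ) < (n : ℝ) - 1 := by
    have : (2 : ℝ) ≤ n := by exact_mod_cast hn
    linarith
  have hcn : (c : ℝ) * n ≤ s * k := by rw [hs, hk]; exact_mod_cast h
  have hcpos : (1 : ℝ) ≤ c := by exact_mod_cast hc
  have hsk : 0 < s * k := lt_of_lt_of_le (by positivity) hcn
  have hspos : 0 < s := by
    rcases (Nat.cast_nonneg Q.card : (0 : ℝ) ≤ Q.card).lt_or_eq with h1 | h1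
    · rw [hs]; exact h1
    · rw [hs, ← h1] at hsk; simp at hsk
  have hkpos : 0 < k := by
    rcases (Nat.cast_nonneg J.card : (0 : ℝ) ≤ J.card).lt_or_eq with h1 | h1
    · rw [hk]; exact h1
    · rw [hk, ← h1] at hsk; simp at hsk
  have hs1 : (1 : ℝ) ≤ s := by
    rw [hs] at hspos ⊢
    exact_mod_cast Nat.pos_of_ne_zero (by rintro h0; rw [h0] at hspos; simp at hspos)
  have hk1 : (1 : ℝ) ≤ k := by
    rw [hk] at hkpos ⊢
    exact_mod_cast Nat.pos_of_ne_zero (by rintro h0; rw [h0] at hkpos; simp at hkpos)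
  have hsn : s ≤ n := by
    rw [hs]
    have := Finset.card_le_univ Q
    rw [Fintype.card_fin] at this
    exact_mod_cast this
  have e1 : (∑ σ ∈ S, (ZJ Q J σ : ℝ)) * n = N * (s * k) := by
    have := sum_ZJ (hS.uni1 hn) Q J
    rw [hN, hs, hk]
    exact_mod_cast this
  have e2 : (∑ σ ∈ S, (ZJ Q J σ : ℝ) ^ 2) * (n * ((n : ℝ) - 1)) = ((n : ℝ) - 1) * (N * (s * k)) +
      N * (s * (s - 1)) * (k * (k - 1)) := by
    have h2 := sum_ZJ_sq hS hn Q J
    have h3 : ((((∑ σ ∈ S, ZJ Q J σ ^ 2) * (n * (n - 1)) : ℕ)) : ℝ) =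
      (((n - 1) * (S.card * (Q.card * J.card)) +
      S.card * (Q.card * (Q.card - 1)) * (J.card * (J.card - 1)) : ℕ) : ℝ) := by
      exact_mod_cast h2
    have q1 : 1 ≤ n := by omega
    have q2 : 1 ≤ Q.card := by rw [hs] at hs1; exact_mod_cast hs1
    have q3 : 1 ≤ J.card := by rw [hk] at hk1; exact_mod_cast hk1
    push_cast [Nat.cast_sub q1, Nat.cast_sub q2, Nat.cast_sub q3] at h3
    rw [hN, hs, hk]
    exact h3
  -- second moment
  have e3 : (B.card : ℝ) * (s * k) ^ 2 ≤ ∑ σ ∈ S, ((n : ℝ) * ZJ Q J σ - s * k) ^ 2 := by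
    have h1 : ∑ σ ∈ B, ((n : ℝ) * ZJ Q J σ - s * k) ^ 2 = (B.card : ℝ) * (s * k) ^ 2 := by
      rw [Finset.sum_congr rfl (g := fun _ => (s * k) ^ 2) (fun σ hσ => ?_), Finset.sum_const,
        nsmul_eq_mul]
      have h0 : ZJ Q J σ = 0 := by
        unfold ZJ
        rw [Finset.card_eq_zero, Finset.filter_eq_empty_iff]
        intro q hq
        rw [hB, Finset.mem_filter] at hσ
        exact hσ.2 q hq
      rw [h0]
      push_cast
      ring
    rw [← h1]
    exact Finset.sum_le_sum_of_subset_of_nonneg (Finset.filter_subset _ _)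
      (fun _ _ _ => sq_nonneg _)
  have e4 : ∑ σ ∈ S, ((n : ℝ) * ZJ Q J σ - s * k) ^ 2 =
      (n : ℝ) ^ 2 * (∑ σ ∈ S, (ZJ Q J σ : ℝ) ^ 2) - 2 * (s * k) * ((∑ σ ∈ S, (ZJ Q J σ : ℝ)) * n) +
        N * (s * k) ^ 2 := by
    have h1 : ∀ σ ∈ S, ((n : ℝ) * ZJ Q J σ - s * k) ^ 2 =
        (n : ℝ) ^ 2 * (ZJ Q J σ : ℝ) ^ 2 - 2 * (s * k) * ((ZJ Q J σ : ℝ) * n) + (s * k) ^ 2 := by
      intro σ _
      ring
    rw [Finset.sum_congr rfl h1, Finset.sum_add_distrib, Finset.sum_sub_distrib, ← Finset.mul_sum,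
      ← Finset.mul_sum, ← Finset.sum_mul, Finset.sum_const, nsmul_eq_mul, hN]
  have hNn : 0 ≤ N := by rw [hN]; positivity
  have e5 : (n : ℝ) ^ 2 * (∑ σ ∈ S, (ZJ Q J σ : ℝ) ^ 2) ≤ N * (s * k) * n + N * (s * k) ^ 2 := by
    have h1 : ((n : ℝ) - 1) * ((n : ℝ) ^ 2 * (∑ σ ∈ S, (ZJ Q J σ : ℝ) ^ 2)) =
        n * (((n : ℝ) - 1) * (N * (s * k)) + N * (s * (s - 1)) * (k * (k - 1))) := by
      rw [← e2]; ring
    have h2 : n * (N * (s * (s - 1)) * (k * (k - 1))) ≤ ((n : ℝ) - 1) * (N * (s * k) ^ 2) := by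
      have h3 : n * (s - 1) ≤ ((n : ℝ) - 1) * s := by nlinarith
      have h4 : n * (s - 1) * (k - 1) ≤ ((n : ℝ) - 1) * s * k := by
        have h5 : n * (s - 1) * (k - 1) ≤ ((n : ℝ) - 1) * s * (k - 1) :=
          mul_le_mul_of_nonneg_right h3 (by linarith)
        have h6 : ((n : ℝ) - 1) * s * (k - 1) ≤ ((n : ℝ) - 1) * s * k :=
          mul_le_mul_of_nonneg_left (by linarith) (by positivity)
        linarith
      have h5 : 0 ≤ N * (s * k) := by positivity
      have h6 := mul_le_mul_of_nonneg_left h4 h5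
      nlinarith
    have h3 : ((n : ℝ) - 1) * ((n : ℝ) ^ 2 * (∑ σ ∈ S, (ZJ Q J σ : ℝ) ^ 2)) ≤
        ((n : ℝ) - 1) * (N * (s * k) * n + N * (s * k) ^ 2) := by
      rw [h1]
      nlinarith
    exact le_of_mul_le_mul_left h3 hn1
  have e6 : (B.card : ℝ) * (s * k) ^ 2 ≤ N * (s * k) * n := by
    rw [e4, e1] at e3
    nlinarith
  have e7 : (B.card : ℝ) * (s * k) ≤ N * n := by
    have h1 : (s * k) * ((B.card : ℝ) * (s * k)) ≤ (s * k) * (N * n) := by nlinarith
    exact le_of_mul_le_mul_left h1 hsk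
  have e8 : (n : ℝ) * ((c : ℝ) * B.card) ≤ n * N := by
    have h1 : (B.card : ℝ) * (c * n) ≤ (B.card : ℝ) * (s * k) :=
      mul_le_mul_of_nonneg_left hcn (by positivity)
    linarith
  have e9 : (c : ℝ) * B.card ≤ N := le_of_mul_le_mul_left e8 hn0
  rw [hN] at e9
  exact_mod_cast e9

end Pool.Agent.Helper48.PW
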