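import Pool.Agent.Helper48.PW.Win
import Pool.Agent.Helper48.PW.Miss

set_option autoImplicit false

/-!
# Hit pairs are changes
-/

namespace Pool.Agent.Helper48.PW

open Pool.Agent.TH49.Spl Pool.Agent.N724.TW

/-- the state of the node after the requests -/
def stt (l m r : ℕ) : Bool → List ℕ → Bool
  | b, [] => b
  | b, x :: X => if l ≤ x ∧ x < m then stt l m r true X
      else if m ≤ x ∧ x < r then stt l m r false X
      else stt l m r b X

theorem cnt_append (l m r : ℕ) (X Y : List ℕ) : ∀ b : Bool,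
    cnt l m r b (X ++ Y) = cnt l m r b X + cnt l m r (stt l m r b X) Y := by
  induction X with
  | nil => intro b; simp [cnt, stt]
  | cons x X ih =>
    intro b
    simp only [List.cons_append, cnt, stt]
    split
    · exact ih true
    · split
      · rw [ih false]; omega
      · exact ih b

theorem cnt_of_right {l m r : ℕ} {w : List ℕ} (h : ∃ x ∈ w, m ≤ x ∧ x < r) :
    1 ≤ cnt l m r true w := by
  induction w with
  | nil => obtain ⟨x, hx, -⟩ := h; simp at hx
  | cons y w ih =>
    simp only [cnt]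
    by_cases h1 : l ≤ y ∧ y < m
    · rw [if_pos h1]
      apply ih
      obtain ⟨x, hx, h2⟩ := h
      rcases List.mem_cons.1 hx with h3 | h3
      · subst h3; omega
      · exact ⟨x, h3, h2⟩
    · rw [if_neg h1]
      by_cases h4 : m ≤ y ∧ y < r
      · rw [if_pos h4]; simp
      · rw [if_neg h4]
        apply ih
        obtain ⟨x, hx, h2⟩ := h
        rcases List.mem_cons.1 hx with h3 | h3
        · subst h3; exact absurd h2 h4
        · exact ⟨x, h3, h2⟩

theorem stt_true {l m r : ℕ} (w : List ℕ) : 1 ≤ cnt l m r true w ∨ stt l m r true w = true := by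
  induction w with
  | nil => right; rfl
  | cons y w ih =>
    simp only [cnt, stt]
    by_cases h1 : l ≤ y ∧ y < m
    · rw [if_pos h1, if_pos h1]; exact ih
    · rw [if_neg h1, if_neg h1]
      by_cases h4 : m ≤ y ∧ y < r
      · rw [if_pos h4]; left; simp
      · rw [if_neg h4, if_neg h4]; exact ih

theorem stt_of_left {l m r : ℕ} {w : List ℕ} (h : ∃ x ∈ w, l ≤ x ∧ x < m) : ∀ b : Bool,
    1 ≤ cnt l m r b w ∨ stt l m r b w = true := by
  induction w with
  | nil => obtain ⟨x, hx, -⟩ := h; simp at hx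
  | cons y w ih =>
    intro b
    simp only [cnt, stt]
    by_cases h1 : l ≤ y ∧ y < m
    · rw [if_pos h1, if_pos h1]; exact stt_true w
    · rw [if_neg h1, if_neg h1]
      have h3 : ∃ x ∈ w, l ≤ x ∧ x < m := by
        obtain ⟨x, hx, h2⟩ := h
        rcases List.mem_cons.1 hx with h3 | h3
        · subst h3; exact absurd h2 h1
        · exact ⟨x, h3, h2⟩
      by_cases h4 : m ≤ y ∧ y < r
      · rw [if_pos h4, if_pos h4]
        rcases ih h3 false with h5 | h5
        · left; omega
        · right; exact h5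
      · rw [if_neg h4, if_neg h4]; exact ih h3 b

theorem cnt_pair {l m r : ℕ} {w1 w2 : List ℕ} (h1 : ∃ x ∈ w1, l ≤ x ∧ x < m)
    (h2 : ∃ x ∈ w2, m ≤ x ∧ x < r) (b : Bool) : 1 ≤ cnt l m r b (w1 ++ w2) := by
  rw [cnt_append]
  rcases stt_of_left (r := r) h1 b with h3 | h3
  · omega
  · rw [h3]
    have := cnt_of_right (l := l) h2
    omega

variable {n : ℕ}

/-- the pair of windows hits both halves of the node -/
def HitP (σ : Equiv.Perm (Fin n)) (l m r : ℕ) (p : List (Fin n) × List (Fin n)) : Prop :=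
  (∃ x ∈ p.1, l ≤ (σ x : ℕ) ∧ (σ x : ℕ) < m) ∧ ∃ x ∈ p.2, m ≤ (σ x : ℕ) ∧ (σ x : ℕ) < r

theorem rel_append (σ : Equiv.Perm (Fin n)) (X Y : List (Fin n)) :
    rel σ (X ++ Y) = rel σ X ++ rel σ Y := by
  simp [rel]

open Classical in
theorem hit_le_cnt (σ : Equiv.Perm (Fin n)) (l m r : ℕ) (R : List (Fin n))
    (P : List (List (Fin n) × List (Fin n))) : ∀ b : Bool,
    (P.map fun p => if HitP σ l m r p then 1 else 0).sum ≤ cnt l m r b (rel σ (cc P ++ R)) := by
  induction P with
  | nil => intro b; simp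
  | cons p P ih =>
    intro b
    rw [List.map_cons, List.sum_cons, cc_cons, List.append_assoc, List.append_assoc,
      ← List.append_assoc, rel_append, cnt_append]
    refine Nat.add_le_add ?_ (ih _)
    by_cases h : HitP σ l m r p
    · rw [if_pos h, rel_append]
      obtain ⟨⟨x, hx, h1⟩, ⟨y, hy, h2⟩⟩ := h
      exact cnt_pair ⟨σ x, List.mem_map.2 ⟨x, hx, rfl⟩, h1⟩ ⟨σ y, List.mem_map.2 ⟨y, hy, rfl⟩, h2⟩ b
    · rw [if_neg h]; exact Nat.zero_le _

/-- the places `[l, m)` -/
def places (n l m : ℕ) : Finset (Fin n) := Finset.univ.filter fun j => l ≤ (j : ℕ) ∧ (j : ℕ) < m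

theorem card_places {n l m : ℕ} (h : m ≤ n) : (places n l m).card = m - l := by
  have h1 : (places n l m).map Fin.valEmbedding = Finset.Ico l m := by
    ext x
    simp only [places, Finset.mem_map, Finset.mem_filter, Finset.mem_univ, true_and,
      Fin.valEmbedding_apply, Finset.mem_Ico]
    constructor
    · rintro ⟨j, h1, rfl⟩
      exact h1
    · intro h1
      exact ⟨⟨x, by omega⟩, h1, rfl⟩
  have h2 := Finset.card_map (f := Fin.valEmbedding) (s := places n l m)
  rw [h1, Nat.card_Ico] at h2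
  exact h2.symm

open Classical in
/-- a pair misses a node with probability at most `2 / c` -/
theorem miss_pair {S : Finset (Equiv.Perm (Fin n))} (hS : Uni2 S) (hn : 2 ≤ n) (c : ℕ) (hc : 1 ≤ c)
    {l m r k s : ℕ} (hm : m = l + k) (hr : r = m + k) (hrn : r ≤ n) (hs : c * n ≤ s * k)
    (p : List (Fin n) × List (Fin n)) (h1 : p.1.toFinset.card = s) (h2 : p.2.toFinset.card = s) :
    c * (S.filter fun σ => ¬ HitP σ l m r p).card ≤ 2 * S.card := by
  have q1 := miss hS hn p.1.toFinset (places n l m) c hc (by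
    rw [card_places (by omega), h1, hm, Nat.add_sub_cancel_left]; exact hs)
  have q2 := miss hS hn p.2.toFinset (places n m r) c hc (by
    rw [card_places (by omega), h2, hr, Nat.add_sub_cancel_left]; exact hs)
  have h3 : (S.filter fun σ => ¬ HitP σ l m r p) ⊆
      (S.filter fun σ => ∀ q ∈ p.1.toFinset, σ q ∉ places n l m) ∪
        (S.filter fun σ => ∀ q ∈ p.2.toFinset, σ q ∉ places n m r) := by
    intro σ hσ
    rw [Finset.mem_filter] at hσ
    obtain ⟨g1, g2⟩ := hσ
    rw [Finset.mem_union, Finset.mem_filter, Finset.mem_filter]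
    by_contra hcon
    push Not at hcon
    obtain ⟨g3, g4⟩ := hcon
    obtain ⟨x, hx, hx2⟩ := g3 g1
    obtain ⟨y, hy, hy2⟩ := g4 g1
    apply g2
    refine ⟨⟨x, List.mem_toFinset.1 hx, ?_⟩, ⟨y, List.mem_toFinset.1 hy, ?_⟩⟩
    · simpa [places] using hx2
    · simpa [places] using hy2
  have h4 := Finset.card_le_card h3
  have h5 := h4.trans (Finset.card_union_le _ _)
  calc c * (S.filter fun σ => ¬ HitP σ l m r p).card ≤
      c * ((S.filter fun σ => ∀ q ∈ p.1.toFinset, σ q ∉ places n l m).card +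
        (S.filter fun σ => ∀ q ∈ p.2.toFinset, σ q ∉ places n m r).card) :=
        Nat.mul_le_mul_left _ h5
    _ ≤ 2 * S.card := by rw [mul_add]; omega

end Pool.Agent.Helper48.PW
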