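import Pool.Agent.Helper48.PW.Asm
import Pool.Agent.Helper48.PW.Aff
import Pool.Agent.R531.Spl.ExE

set_option autoImplicit false

/-!
# One-wise uniform families do not suffice: the rotations of the key space
-/

namespace Pool.Agent.Helper48.PW

open Pool.Agent.H581R2.Splay Pool.Agent.TH49.Spl Pool.Agent.N724.TW Pool.Agent.Y395.SP

/-- the left path with the keys `0, ..., k - 1` -/
def lp : ℕ → Tr
  | 0 => Tr.nil
  | k + 1 => Tr.node k (lp k) Tr.nil

/-- the right path with the keys `a, ..., a + k - 1` -/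
def rp : ℕ → ℕ → Tr
  | 0, _ => Tr.nil
  | k + 1, a => Tr.node a Tr.nil (rp k (a + 1))

/-- the tree with root `i` and two paths -/
def ZT (n i : ℕ) : Tr := Tr.node i (lp i) (rp (n - 1 - i) (i + 1))

theorem keys_lp (k : ℕ) : keys (lp k) = List.range k := by
  induction k with
  | zero => rfl
  | succ k ih => rw [lp, keys, ih, keys, List.range_succ]

theorem keys_rp (k : ℕ) : ∀ a : ℕ, keys (rp k a) = List.range' a k := by
  induction k with
  | zero => intro a; rfl
  | succ k ih => intro a; rw [rp, keys, ih, keys, List.range'_succ]; rfl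

theorem keys_ZT {n i : ℕ} (hi : i < n) : keys (ZT n i) = List.range n := by
  rw [ZT, keys, keys_lp, keys_rp, ← List.range'_succ]
  have h1 : n - 1 - i + 1 = n - i := by omega
  rw [h1, List.range_eq_range', List.range_eq_range']
  have h2 := List.range'_append_1 (s := 0) (m := i) (n := n - i)
  rw [Nat.zero_add] at h2
  rw [h2]
  congr 1
  omega

theorem rot_ZT {n i : ℕ} (hi : i + 1 < n) : ∃ s, Rot (ZT n i) (ZT n (i + 1)) s := by
  obtain ⟨d, hd⟩ : ∃ d, n - 1 - i = d + 1 := ⟨n - 1 - (i + 1), by omega⟩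
  have hd' : n - 1 - (i + 1) = d := by omega
  unfold ZT
  rw [hd, hd']
  exact ⟨_, Rot.left (i + 1) i (lp i) Tr.nil (rp d (i + 1 + 1))⟩

theorem rotN_ZT {n : ℕ} (d : ℕ) : ∀ i : ℕ, i + d < n → RotN d (ZT n i) (ZT n (i + d)) := by
  induction d with
  | zero => intro i _; exact RotN.refl _
  | succ d ih =>
    intro i hi
    obtain ⟨s, hs⟩ := rot_ZT (n := n) (i := i) (by omega)
    have h := ih (i + 1) (by omega)
    rw [show i + (d + 1) = i + 1 + d by ring]
    exact RotN.step d s _ _ _ hs h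

theorem step_ZT {n : ℕ} (hn : 0 < n) (u : ℕ) :
    ∃ e : ℕ, e + n * (u / n) ≤ 1 + n * ((u + 1) / n) ∧
      RotN e (ZT n (u % n)) (ZT n ((u + 1) % n)) := by
  have h1 := Nat.div_add_mod u n
  have h2 := Nat.mod_lt u hn
  by_cases h : u % n + 1 < n
  · have h3 : (u + 1) % n = u % n + 1 := by
      rw [Nat.add_mod, Nat.mod_eq_of_lt (show 1 < n by omega)]
      exact Nat.mod_eq_of_lt h
    have h4 : n * (u / n) ≤ n * ((u + 1) / n) :=
      Nat.mul_le_mul_left _ (Nat.div_le_div_right (by omega))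
    refine ⟨1, by omega, ?_⟩
    rw [h3]
    exact rotN_ZT 1 (u % n) h
  · have h3 : u % n = n - 1 := by omega
    have h4 : u + 1 = n * (u / n + 1) := by
      rw [mul_add, mul_one]; omega
    have h5 : (u + 1) % n = 0 := by rw [h4]; exact Nat.mul_mod_right _ _
    have h6 : (u + 1) / n = u / n + 1 := by
      rw [h4]; exact Nat.mul_div_cancel_left _ hn
    refine ⟨n - 1, ?_, ?_⟩
    · rw [h6, mul_add]; omega
    · rw [h5, h3]
      have := rotN_ZT (n := n) (n - 1) 0 (by omega)
      rw [Nat.zero_add] at this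
      exact R531.Spl.rotN_symm this

theorem dep_ZT (n i : ℕ) : dep i (ZT n i) = 0 := by
  simp [ZT, dep]

theorem exec_cyc {n : ℕ} (hn : 0 < n) (L : ℕ) : ∀ u : ℕ,
    ∃ c : ℕ, c + n * (u / n) ≤ 2 * L + n * ((u + L) / n) ∧
      Exec (ZT n (u % n)) ((List.range' u L).map fun t => t % n) c := by
  induction L with
  | zero =>
    intro u
    exact ⟨0, by simp, by simpa using Exec.nil _⟩
  | succ L ih =>
    intro u
    obtain ⟨c, h1, h2⟩ := ih (u + 1)
    obtain ⟨e, h3, h4⟩ := step_ZT hn u
    refine ⟨1 + e + dep (u % n) (ZT n (u % n)) + c, ?_, ?_⟩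
    · rw [dep_ZT, show u + (L + 1) = u + 1 + L by ring]
      omega
    · rw [List.range'_succ, List.map_cons]
      exact Exec.cons _ _ _ _ e c h4 h2

section
variable {n : ℕ} (hn : 0 < n)

/-- the keys in cyclic order -/
def fc (t : ℕ) : Fin n := ⟨t % n, Nat.mod_lt _ hn⟩

/-- the cyclic sequence -/
def Xc (L : ℕ) : List (Fin n) := (List.range L).map (fc hn)

theorem opt_rot [NeZero n] (M : ℕ) (b : Fin n) :
    optAny (List.range n) (rel (Equiv.addRight b) (Xc hn (M * n))) ≤ 3 * M * n := by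
  obtain ⟨c, h1, h2⟩ := exec_cyc hn (M * n) b
  have h3 : rel (Equiv.addRight b) (Xc hn (M * n)) =
      (List.range' (b : ℕ) (M * n)).map fun t => t % n := by
    unfold rel Xc
    rw [List.map_map, List.range'_eq_map_range, List.map_map]
    refine List.map_congr_left fun t _ => ?_
    simp only [Function.comp_apply, Equiv.coe_addRight, Fin.val_add, fc, Nat.mod_add_mod]
    rw [Nat.add_comm]
  rw [h3]
  have h5 : optAny (List.range n) ((List.range' (b : ℕ) (M * n)).map fun t => t % n) ≤ c :=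
    Nat.sInf_le (s := {c : ℕ | ∃ T : Tr, keys T = List.range n ∧
      Exec T ((List.range' (b : ℕ) (M * n)).map fun t => t % n) c})
      ⟨ZT n ((b : ℕ) % n), keys_ZT (Nat.mod_lt _ hn), h2⟩
  refine h5.trans ?_
  rw [Nat.add_mul_div_right _ _ hn, mul_add] at h1
  have h4 : 3 * M * n = 2 * (M * n) + n * M := by ring
  omega

/-- the rotations of the key space -/
def rots (n : ℕ) [NeZero n] : Finset (Equiv.Perm (Fin n)) :=
  Finset.univ.image fun b : Fin n => Equiv.addRight b

theorem uni1_rots (n : ℕ) [NeZero n] : Uni1 (rots n) := by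
  classical
  intro a a'
  have h1 : (rots n).card = n := by
    unfold rots
    rw [Finset.card_image_of_injective, Finset.card_univ, Fintype.card_fin]
    intro b b' h
    have := congrArg (fun σ : Equiv.Perm (Fin n) => σ 0) h
    simpa using this
  have h2 : ((rots n).filter fun σ => σ a = a').card = 1 := by
    rw [Finset.card_eq_one]
    refine ⟨Equiv.addRight (a' - a), ?_⟩
    rw [Finset.eq_singleton_iff_unique_mem]
    refine ⟨?_, ?_⟩
    · rw [Finset.mem_filter]
      refine ⟨Finset.mem_image.2 ⟨_, Finset.mem_univ _, rfl⟩, ?_⟩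
      simp
    · intro σ hσ
      rw [Finset.mem_filter] at hσ
      obtain ⟨hσ, h4⟩ := hσ
      unfold rots at hσ
      obtain ⟨b, -, rfl⟩ := Finset.mem_image.1 hσ
      simp only [Equiv.coe_addRight] at h4
      rw [← h4]
      simp
  rw [h1, h2, one_mul]

theorem wsumF_append (X Y : List (Fin n)) : ∀ h : List (Fin n),
    wsumF h (X ++ Y) = wsumF h X + wsumF (X.reverse ++ h) Y := by
  induction X with
  | nil => intro h; simp [wsumF]
  | cons x X ih =>
    intro h
    simp only [List.cons_append, wsumF, ih, List.reverse_cons, List.append_assoc, List.nil_append]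
    ring

theorem wsumF_nonneg (X : List (Fin n)) : ∀ h : List (Fin n), 0 ≤ wsumF h X := by
  induction X with
  | nil => intro h; simp [wsumF]
  | cons x X ih =>
    intro h
    simp only [wsumF]
    have h1 : 0 ≤ Real.logb 2 ((wsF h x : ℝ) + 1) := by
      apply Real.logb_nonneg (by norm_num)
      have : (0 : ℝ) ≤ wsF h x := Nat.cast_nonneg _
      linarith
    have := ih (x :: h)
    linarith

theorem wsF_cyc (t : ℕ) (ht : n ≤ t) : n ≤ wsF (Xc hn t).reverse (fc hn t) + 1 := by
  have h1 : Xc hn t = Xc hn (t + 1 - n) ++ (List.range' (t + 1 - n) (n - 1)).map (fc hn) := by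
    unfold Xc
    rw [← List.map_append]
    congr 1
    rw [List.range_eq_range', List.range_eq_range']
    have h2 := List.range'_append_1 (s := 0) (m := t + 1 - n) (n := n - 1)
    rw [Nat.zero_add] at h2
    rw [h2]
    congr 1
    omega
  have key : ∀ t1 t2 : ℕ, t1 < t2 → t2 < t1 + n → fc hn t1 ≠ fc hn t2 := by
    intro t1 t2 q1 q2 q3
    have q4 : t1 % n = t2 % n := congrArg Fin.val q3
    have q5 : (t2 - t1) % n = 0 := Nat.sub_mod_eq_zero_of_mod_eq q4.symm
    have q6 := Nat.le_of_dvd (by omega) (Nat.dvd_of_mod_eq_zero q5)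
    omega
  unfold wsF
  rw [h1, List.reverse_append, List.takeWhile_append_of_pos]
  · have h2 : (((List.range' (t + 1 - n) (n - 1)).map (fc hn)).reverse).toFinset.card = n - 1 := by
      rw [List.toFinset_card_of_nodup]
      · simp
      · rw [List.nodup_reverse]
        refine List.Nodup.map_on ?_ (List.nodup_range')
        intro x hx y hy hxy
        rw [List.mem_range'_1] at hx hy
        rcases lt_trichotomy x y with h | h | h
        · exact absurd hxy (key x y h (by omega))
        · exact h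
        · exact absurd hxy.symm (key y x h (by omega))
    have h3 : (((List.range' (t + 1 - n) (n - 1)).map (fc hn)).reverse).toFinset ⊆
        (((List.range' (t + 1 - n) (n - 1)).map (fc hn)).reverse ++
          List.takeWhile (fun y => decide (y ≠ fc hn t)) (Xc hn (t + 1 - n)).reverse).toFinset := by
      rw [List.toFinset_append]
      exact Finset.subset_union_left
    have h4 := Finset.card_le_card h3
    omega
  · intro y hy
    rw [List.mem_reverse, List.mem_map] at hy
    obtain ⟨t', ht', rfl⟩ := hy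
    rw [List.mem_range'_1] at ht'
    have := key t' t (by omega) (by omega)
    simpa using this

theorem wsum_cyc (L : ℕ) : L * Real.logb 2 n ≤ wsumF [] (Xc hn (n + L)) := by
  induction L with
  | zero =>
    have := wsumF_nonneg (Xc hn (n + 0)) []
    simpa using this
  | succ L ih =>
    have h1 : Xc hn (n + (L + 1)) = Xc hn (n + L) ++ [fc hn (n + L)] := by
      unfold Xc
      rw [← add_assoc, List.range_succ, List.map_append]
      rfl
    rw [h1, wsumF_append]
    simp only [wsumF, add_zero, List.append_nil]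
    have h2 := wsF_cyc hn (n + L) (by omega)
    have h3 : Real.logb 2 n ≤ Real.logb 2 ((wsF (Xc hn (n + L)).reverse (fc hn (n + L)) : ℝ) + 1) := by
      apply Real.logb_le_logb_of_le (by norm_num) (by exact_mod_cast hn)
      exact_mod_cast h2
    push_cast
    linarith

end

/-- **One-wise uniform families do not suffice.** -/
theorem sharp (hV : S_VAL) (hI : S_INV) (C : ℝ) :
    ∃ (n : ℕ) (S : Finset (Equiv.Perm (Fin n))) (X : List (Fin n)) (ρ : Equiv.Perm (Fin n)),
      Uni1 S ∧ S.Nonempty ∧ (∀ x : Fin n, x ∈ X) ∧ ∀ T : Tr, keys T = List.range n → ∀ σ ∈ S,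
        C * (optAny (List.range n) (rel σ X) + n * Real.logb 2 n) < costSplay T (rel ρ X) := by
  classical
  obtain ⟨D0, hD0⟩ : ∃ D0 : ℕ, C ≤ D0 := exists_nat_ge C
  obtain ⟨D, hD⟩ : ∃ D, D = 350 * D0 := ⟨_, rfl⟩
  obtain ⟨k, hk⟩ : ∃ k, k = 6 * D + 1 := ⟨_, rfl⟩
  obtain ⟨n, hn⟩ : ∃ n, n = 2 ^ k := ⟨_, rfl⟩
  obtain ⟨M, hM⟩ : ∃ M, M = 2 * (41 + D) := ⟨_, rfl⟩
  have hn2 : 2 ≤ n := by
    rw [hn, hk]
    calc 2 = 2 ^ 1 := rfl
      _ ≤ 2 ^ (6 * D + 1) := Nat.pow_le_pow_right (by norm_num) (by omega)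
  have hn0 : 0 < n := by omega
  haveI : NeZero n := ⟨by omega⟩
  obtain ⟨S', hS', hS'c⟩ : ∃ S : Finset (Equiv.Perm (Fin n)), Uni2 S ∧ S.card = n * (n - 1) := by
    rw [hn]; exact exists_uni2 2 k Nat.prime_two (by omega)
  obtain ⟨B, b1, b2, b3⟩ := main_c hV hI S' hS' 5 (by norm_num) (Xc hn0 (M * n))
  have hpos : 0 < S'.card := by
    rw [hS'c]; exact Nat.mul_pos hn0 (by omega)
  obtain ⟨ρ, hρ, hρB⟩ : ∃ ρ ∈ S', ρ ∉ B := by
    by_contra hcon
    push Not at hcon
    have : S' ⊆ B := fun x hx => hcon x hx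
    have := Finset.card_le_card this
    omega
  refine ⟨n, rots n, Xc hn0 (M * n), ρ, uni1_rots n, ?_, ?_, ?_⟩
  · exact ⟨_, Finset.mem_image.2 ⟨0, Finset.mem_univ _, rfl⟩⟩
  · intro x
    unfold Xc
    rw [List.mem_map]
    refine ⟨x, ?_, ?_⟩
    · rw [List.mem_range]
      have h1 : 1 * n ≤ M * n := Nat.mul_le_mul_right _ (by omega)
      have := x.2
      omega
    · exact Fin.ext (Nat.mod_eq_of_lt x.2)
  · intro T hT σ hσ
    obtain ⟨b, -, rfl⟩ := Finset.mem_image.1 hσ
    have h1 := opt_rot hn0 M b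
    obtain ⟨-, -, h2⟩ := b3 ρ hρ hρB ρ T hT
    have h3 : M * n = n + (M - 1) * n := by
      obtain ⟨M', hM'⟩ : ∃ M', M = M' + 1 := ⟨M - 1, by omega⟩
      rw [hM', Nat.add_sub_cancel]; ring
    have h4 := wsum_cyc hn0 ((M - 1) * n)
    rw [← h3] at h4
    have hlog : Real.logb 2 n = k := by
      rw [hn]
      push_cast
      rw [Real.logb_pow]
      simp
    rw [hlog] at h2 h4 ⊢
    have h5 : (optAny (List.range n) (rel ρ (Xc hn0 (M * n))) : ℝ) ≤
        2 * costSplay T (rel ρ (Xc hn0 (M * n))) := by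
      obtain ⟨c, hc, hE⟩ := R531.Spl.serve (rel ρ (Xc hn0 (M * n))) (T := T) (bst_range hT)
        (fun x hx => by rw [hT, List.mem_range]; exact rel_mem ρ _ x hx)
      have h6 : optAny (List.range n) (rel ρ (Xc hn0 (M * n))) ≤ c :=
        Nat.sInf_le ⟨T, hT, hE.exec⟩
      exact_mod_cast h6.trans hc
    have h1R : (optAny (List.range n) (rel (Equiv.addRight b) (Xc hn0 (M * n))) : ℝ) ≤
        3 * M * n := by exact_mod_cast h1
    have hMR : (M : ℝ) = 2 * (41 + D) := by rw [hM]; push_cast; ring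
    have hM1 : (((M - 1 : ℕ) : ℝ)) = M - 1 := by
      rw [Nat.cast_sub (by omega)]; simp
    push_cast at h4
    rw [hM1] at h4
    have hkR : (k : ℝ) = 6 * D + 1 := by rw [hk]; push_cast; ring
    have hDR : (D : ℝ) = 350 * D0 := by rw [hD]; push_cast; ring
    have hnR : (0 : ℝ) < n := by exact_mod_cast hn0
    have hD0' : (0 : ℝ) ≤ D0 := Nat.cast_nonneg _
    have hDn : (0 : ℝ) ≤ D := Nat.cast_nonneg _
    have hkn : (0 : ℝ) ≤ k := Nat.cast_nonneg _
    have e1 : C * (optAny (List.range n) (rel (Equiv.addRight b) (Xc hn0 (M * n))) + n * k) ≤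
        D0 * (3 * M * n + n * k) := by
      have g1 : (0 : ℝ) ≤ optAny (List.range n) (rel (Equiv.addRight b) (Xc hn0 (M * n))) + n * k := by
        positivity
      calc C * (optAny (List.range n) (rel (Equiv.addRight b) (Xc hn0 (M * n))) + n * k) ≤
          D0 * (optAny (List.range n) (rel (Equiv.addRight b) (Xc hn0 (M * n))) + n * k) :=
            mul_le_mul_of_nonneg_right hD0 g1
        _ ≤ D0 * (3 * M * n + n * k) := mul_le_mul_of_nonneg_left (by linarith) hD0'
    refine lt_of_le_of_lt e1 ?_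
    have e2 : ((M : ℝ) - 41) * (n * k) ≤ 350 * costSplay T (rel ρ (Xc hn0 (M * n))) := by
      simp only [Nat.cast_ofNat] at h2
      linarith
    have e3 : 350 * (D0 * (3 * M * n + n * k)) < ((M : ℝ) - 41) * (n * k) := by
      have g1 : 350 * ((D0 : ℝ) * (3 * M * n + n * k)) = n * (D * (3 * M + k)) := by
        rw [hDR]; ring
      have g2 : ((M : ℝ) - 41) * (n * k) = n * ((M - 41) * k) := by ring
      rw [g1, g2]
      refine mul_lt_mul_of_pos_left ?_ hnR
      rw [hMR, hkR]
      nlinarith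
    linarith

end Pool.Agent.Helper48.PW
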