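import Pool.Agent.Helper48.PW.Rand
import Pool.Agent.Helper48.PW.Sharp
import Pool.Agent.H581R2.SplayItin

set_option autoImplicit false

/-!
# Combs: keys which are served cheaply under few given relabellings
-/

namespace Pool.Agent.Helper48.PW

open Pool.Agent.H581R2.Splay Pool.Agent.TH49.Spl Pool.Agent.N724.TW Pool.Agent.Y395.SP

section
variable {α β : Type*}

/-- the closed walk from `y` down the path `ys` and back to `y` -/
def cw : α → List α → List α
  | _, [] => []
  | y, y' :: ys => y' :: (cw y' ys ++ [y])

theorem cw_map (g : α → β) (ys : List α) : ∀ y : α, (cw y ys).map g = cw (g y) (ys.map g) := by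
  induction ys with
  | nil => intro y; rfl
  | cons y' ys ih => intro y; simp only [cw, List.map_cons, List.map_append, ih, List.map_nil]

theorem cw_length (ys : List α) : ∀ y : α, (cw y ys).length = 2 * ys.length := by
  induction ys with
  | nil => intro y; rfl
  | cons y' ys ih =>
    intro y
    simp only [cw, List.length_cons, List.length_append, ih, List.length_nil]
    ring

theorem mem_cw (ys : List α) : ∀ (y x : α), x ∈ cw y ys → x = y ∨ x ∈ ys := by
  induction ys with
  | nil => intro y x h; simp [cw] at h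
  | cons y' ys ih =>
    intro y x h
    simp only [cw, List.mem_cons, List.mem_append, List.not_mem_nil, or_false] at h ⊢
    rcases h with h | h | h
    · exact Or.inr (Or.inl h)
    · rcases ih y' x h with h | h
      · exact Or.inr (Or.inl h)
      · exact Or.inr (Or.inr h)
    · exact Or.inl h

theorem sub_cw (ys : List α) : ∀ (y x : α), x ∈ ys → x ∈ cw y ys := by
  induction ys with
  | nil => intro y x h; simp at h
  | cons y' ys ih =>
    intro y x h
    simp only [cw, List.mem_cons, List.mem_append, List.not_mem_nil, or_false] at h ⊢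
    rcases h with h | h
    · exact Or.inl h
    · exact Or.inr (Or.inl (ih y' x h))

theorem cw_head (ys : List α) (y : α) (h : List α) :
    ∃ h' : List α, (cw y ys).reverse ++ (y :: h) = y :: h' := by
  cases ys with
  | nil => exact ⟨h, rfl⟩
  | cons y' ys =>
    refine ⟨(cw y' ys).reverse ++ (y' :: (y :: h)), ?_⟩
    simp [cw]

end

/-- every key lies on one side of all later keys -/
def Cmb : List ℕ → Prop
  | [] => True
  | y :: ys => ((∀ z ∈ ys, z < y) ∨ (∀ z ∈ ys, y < z)) ∧ Cmb ys

open Classical in
/-- the tree with the keys in `[lo, hi)` and with the path `ys` at the top -/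
noncomputable def ct : ℕ → ℕ → List ℕ → Tr
  | lo, hi, [] => rp (hi - lo) lo
  | lo, hi, y :: ys => if ∀ z ∈ ys, z < y then Tr.node y (ct lo y ys) (rp (hi - y - 1) (y + 1))
      else Tr.node y (rp (y - lo) lo) (ct (y + 1) hi ys)

theorem keys_ct (ys : List ℕ) : ∀ lo hi : ℕ, (∀ z ∈ ys, lo ≤ z ∧ z < hi) → Cmb ys →
    keys (ct lo hi ys) = List.range' lo (hi - lo) := by
  induction ys with
  | nil => intro lo hi _ _; exact keys_rp _ _
  | cons y ys ih =>
    intro lo hi h1 h2
    obtain ⟨h3, h4⟩ := h1 y (by simp)
    have e1 : List.range' lo (y - lo) ++ (y :: List.range' (y + 1) (hi - y - 1)) =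
        List.range' lo (hi - lo) := by
      rw [← List.range'_succ]
      have h5 := List.range'_append_1 (s := lo) (m := y - lo) (n := hi - y - 1 + 1)
      rw [show lo + (y - lo) = y by omega] at h5
      rw [h5]
      congr 1
      omega
    unfold ct
    by_cases h : ∀ z ∈ ys, z < y
    · rw [if_pos h, keys, keys_rp, ih lo y (fun z hz => ⟨(h1 z (by simp [hz])).1, h z hz⟩) h2.2]
      exact e1
    · rw [if_neg h, keys, keys_rp]
      have h6 : ∀ z ∈ ys, y < z := by
        rcases h2.1 with h7 | h7
        · exact absurd h7 h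
        · exact h7
      rw [ih (y + 1) hi (fun z hz => ⟨h6 z hz, (h1 z (by simp [hz])).2⟩) h2.2,
        show hi - (y + 1) = hi - y - 1 by omega]
      exact e1

theorem itin_cw (ys : List ℕ) : ∀ (y lo hi : ℕ) (fs : List Fr) (L R : Tr) (X : List ℕ),
    ct lo hi (y :: ys) = Tr.node y L R → Itin fs L y R X → Itin fs L y R (cw y ys ++ X) := by
  induction ys with
  | nil => intro y lo hi fs L R X _ h; exact h
  | cons y' ys ih =>
    intro y lo hi fs L R X hct h
    have key : ∀ a b : ℕ, ∃ L' R' : Tr, ct a b (y' :: ys) = Tr.node y' L' R' := by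
      intro a b
      unfold ct
      split_ifs
      · exact ⟨_, _, rfl⟩
      · exact ⟨_, _, rfl⟩
    have e1 : cw y (y' :: ys) ++ X = y' :: (cw y' ys ++ (y :: X)) := by
      simp [cw]
    rw [e1]
    rw [ct] at hct
    split_ifs at hct with hc
    · rw [Tr.node.injEq] at hct
      obtain ⟨-, hL, hR⟩ := hct
      obtain ⟨L', R', h1⟩ := key lo y
      rw [h1] at hL
      rw [← hL] at h ⊢
      apply Itin.downL
      apply ih y' lo y _ _ _ _ h1
      exact Itin.upL fs L' R' R y y' X h
    · rw [Tr.node.injEq] at hct
      obtain ⟨-, hL, hR⟩ := hct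
      obtain ⟨L', R', h1⟩ := key (y + 1) hi
      rw [h1] at hR
      rw [← hR] at h ⊢
      apply Itin.downR
      apply ih y' (y + 1) hi _ _ _ _ h1
      exact Itin.upR fs L L' R' y y' X h

/-- `M` closed walks -/
def cwM {α : Type*} (y : α) (ys : List α) (M : ℕ) : List α := y :: (List.replicate M (cw y ys)).flatten

theorem itin_cwM (y : ℕ) (ys : List ℕ) {lo hi : ℕ} {L R : Tr}
    (h : ct lo hi (y :: ys) = Tr.node y L R) (M : ℕ) :
    Itin [] L y R (List.replicate M (cw y ys)).flatten := by
  induction M with
  | zero => exact Itin.nil _ _ _ _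
  | succ M ih =>
    rw [List.replicate_succ, List.flatten_cons]
    exact itin_cw ys y lo hi [] L R _ h ih

theorem cwM_length {α : Type*} (y : α) (ys : List α) (M : ℕ) :
    (cwM y ys M).length = 1 + 2 * M * ys.length := by
  unfold cwM
  rw [List.length_cons, List.length_flatten, List.map_replicate, List.sum_replicate, cw_length,
    smul_eq_mul]
  ring

theorem bst_ct {n : ℕ} {ys : List ℕ} (h1 : ∀ z ∈ ys, z < n) (h2 : Cmb ys) :
    keys (ct 0 n ys) = List.range n := by
  rw [keys_ct ys 0 n (fun z hz => ⟨Nat.zero_le _, h1 z hz⟩) h2, Nat.sub_zero,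
    List.range_eq_range']

theorem cost_cwM {n : ℕ} {y : ℕ} {ys : List ℕ} (h1 : ∀ z ∈ y :: ys, z < n) (h2 : Cmb (y :: ys))
    (M : ℕ) : costSplay (ct 0 n (y :: ys)) (cwM y ys M) ≤ 24 * (1 + 2 * M * ys.length) := by
  obtain ⟨L, R, h3⟩ : ∃ L R : Tr, ct 0 n (y :: ys) = Tr.node y L R := by
    unfold ct
    split_ifs
    · exact ⟨_, _, rfl⟩
    · exact ⟨_, _, rfl⟩
  have h4 := bst_range (bst_ct h1 h2)
  rw [h3] at h4 ⊢
  have h5 := splay_itin h4 (Itin.stay _ _ _ _ _ (itin_cwM y ys h3 M))
  have h6 := cwM_length y ys M
  unfold cwM at h6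
  rw [h6] at h5
  exact h5

theorem cost_append_le {n : ℕ} (X Y : List ℕ) : ∀ T : Tr, keys T = List.range n →
    (∀ x ∈ X ++ Y, x < n) → costSplay T (X ++ Y) ≤ costSplay T X + (n + 1) * Y.length := by
  have step : ∀ (T : Tr) (x : ℕ), keys T = List.range n → x < n →
      keys (splay x T) = List.range n := by
    intro T x hT hx
    rw [splay_keys (bst_range hT) (by rw [hT]; exact List.mem_range.2 hx), hT]
  have hd : ∀ (T : Tr) (x : ℕ), keys T = List.range n → dep x T ≤ n := by
    intro T x hT
    have := dep_le_size x T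
    rw [size_eq, hT, List.length_range] at this
    exact this
  induction X with
  | nil =>
    rw [List.nil_append]
    induction Y with
    | nil => intro T _ _; simp [costSplay]
    | cons y Y ih =>
      intro T hT hX
      have h1 := ih (splay y T) (step T y hT (hX y (by simp))) (fun x hx => hX x (by simp [hx]))
      have h2 := hd T y hT
      simp only [costSplay, List.length_cons] at h1 ⊢
      have e : (n + 1) * (Y.length + 1) = (n + 1) * Y.length + (n + 1) := by ring
      omega
  | cons x X ih =>
    intro T hT hX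
    have h1 := ih (splay x T) (step T x hT (hX x (by simp)))
      (fun z hz => hX z (by rw [List.cons_append]; exact List.mem_cons_of_mem _ hz))
    simp only [List.cons_append, costSplay]
    omega

variable {n K : ℕ}

/-- **Extraction of a comb.** -/
theorem comb_exists (f : Fin K → Equiv.Perm (Fin n)) (m : ℕ) : ∀ P : Finset (Fin n),
    2 ^ ((K + 1) * m) ≤ P.card → ∃ (x : Fin n) (xs : List (Fin n)), xs.length = m ∧
      (x :: xs).Nodup ∧ (∀ z ∈ x :: xs, z ∈ P) ∧
        ∀ j : Fin K, Cmb ((x :: xs).map fun z => (f j z : ℕ)) := by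
  classical
  induction m with
  | zero =>
    intro P hP
    have : P.Nonempty := by
      rw [← Finset.card_pos]
      exact lt_of_lt_of_le (by positivity) hP
    obtain ⟨x, hx⟩ := this
    exact ⟨x, [], rfl, by simp, by simpa using hx, fun j => by simp [Cmb]⟩
  | succ m ih =>
    intro P hP
    have hpos : P.Nonempty := by
      rw [← Finset.card_pos]
      exact lt_of_lt_of_le (by positivity) hP
    obtain ⟨x, hx⟩ := hpos
    have h1 : 2 ^ K * 2 ^ ((K + 1) * m) ≤ (P.erase x).card := by
      rw [Finset.card_erase_of_mem hx]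
      have e : 2 ^ ((K + 1) * (m + 1)) = 2 * (2 ^ K * 2 ^ ((K + 1) * m)) := by
        rw [mul_add, mul_one, pow_add, pow_succ]
        ring
      have : 0 < 2 ^ K * 2 ^ ((K + 1) * m) := by positivity
      omega
    have h2 := Finset.exists_le_card_fiber_of_mul_le_card_of_maps_to
      (s := P.erase x) (t := (Finset.univ : Finset (Fin K → Bool)))
      (f := fun z => fun j => decide ((f j z : ℕ) < f j x)) (n := 2 ^ ((K + 1) * m))
      (fun _ _ => Finset.mem_univ _) ⟨fun _ => true, Finset.mem_univ _⟩
      (by rw [Finset.card_univ, Fintype.card_fun, Fintype.card_bool, Fintype.card_fin]; exact h1)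
    obtain ⟨v, -, hv⟩ := h2
    obtain ⟨x', xs, g1, g2, g3, g4⟩ := ih _ hv
    refine ⟨x, x' :: xs, by rw [List.length_cons, g1], ?_, ?_, fun j => ?_⟩
    · rw [List.nodup_cons]
      refine ⟨fun hmem => ?_, g2⟩
      have := g3 x hmem
      rw [Finset.mem_filter] at this
      exact (Finset.mem_erase.1 this.1).1 rfl
    · intro z hz
      rcases List.mem_cons.1 hz with h3 | h3
      · rw [h3]; exact hx
      · have := g3 z h3
        rw [Finset.mem_filter] at this
        exact (Finset.mem_erase.1 this.1).2
    · rw [List.map_cons]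
      refine ⟨?_, g4 j⟩
      cases hvj : v j with
      | true =>
        left
        intro z hz
        rw [List.mem_map] at hz
        obtain ⟨w, hw, rfl⟩ := hz
        have h3 := (Finset.mem_filter.1 (g3 w hw)).2
        have h4 := congrFun h3 j
        rw [hvj] at h4
        exact of_decide_eq_true h4
      | false =>
        right
        intro z hz
        rw [List.mem_map] at hz
        obtain ⟨w, hw, rfl⟩ := hz
        have h5 := Finset.mem_filter.1 (g3 w hw)
        have h4 := congrFun h5.2 j
        rw [hvj] at h4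
        have h6 := of_decide_eq_false h4
        have h7 : w ≠ x := (Finset.mem_erase.1 h5.1).1
        have h8 : (f j w : ℕ) ≠ f j x := fun h => h7 ((f j).injective (Fin.ext h))
        omega

/-! ### the working set bound of a comb -/

theorem wsF_ret (w h : List (Fin n)) (x : Fin n) (hx : x ∉ w) :
    wsF (w.reverse ++ x :: h) x = w.toFinset.card := by
  unfold wsF
  have h1 : (w.reverse ++ x :: h).takeWhile (fun y => decide (y ≠ x)) = w.reverse := by
    rw [List.takeWhile_append_of_pos]
    · simp
    · intro y hy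
      rw [List.mem_reverse] at hy
      have hyx : y ≠ x := by
        rintro rfl
        exact hx hy
      simpa using hyx
  rw [h1]
  congr 1
  ext y
  simp

/-- `∑ log₂ (i + 2)` -/
noncomputable def Lg (m : ℕ) : ℝ := ∑ i ∈ Finset.range m, Real.logb 2 ((i : ℝ) + 2)

theorem ws_cw (ys : List (Fin n)) : ∀ (y : Fin n) (h : List (Fin n)), (y :: ys).Nodup →
    Lg ys.length ≤ wsumF (y :: h) (cw y ys) := by
  induction ys with
  | nil => intro y h _; simp [Lg, cw, wsumF]
  | cons y' ys ih =>
    intro y h hnd
    rw [List.nodup_cons] at hnd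
    have h1 := ih y' (y :: h) hnd.2
    have h2 : 0 ≤ Real.logb 2 ((wsF (y :: h) y' : ℝ) + 1) := by
      apply Real.logb_nonneg (by norm_num)
      have : (0 : ℝ) ≤ wsF (y :: h) y' := Nat.cast_nonneg _
      linarith
    have h3 : wsF ((cw y' ys).reverse ++ (y' :: (y :: h))) y = ys.length + 1 := by
      have e1 : (cw y' ys).reverse ++ (y' :: (y :: h)) = (y' :: cw y' ys).reverse ++ y :: h := by
        simp
      rw [e1, wsF_ret]
      · have e2 : (y' :: cw y' ys).toFinset = (y' :: ys).toFinset := by
          ext z
          simp only [List.mem_toFinset, List.mem_cons]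
          constructor
          · rintro (h | h)
            · exact Or.inl h
            · exact mem_cw ys y' z h
          · rintro (h | h)
            · exact Or.inl h
            · exact Or.inr (sub_cw ys y' z h)
        rw [e2, List.toFinset_card_of_nodup hnd.2, List.length_cons]
      · intro hmem
        apply hnd.1
        rcases List.mem_cons.1 hmem with h | h
        · rw [h]; simp
        · rcases mem_cw ys y' y h with h | h
          · rw [h]; simp
          · exact List.mem_cons_of_mem _ h
    rw [cw]
    simp only [wsumF, wsumF_append, add_zero]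
    rw [h3, List.length_cons, Lg, Finset.sum_range_succ, ← Lg]
    push_cast
    have e3 : (ys.length : ℝ) + 1 + 1 = ys.length + 2 := by ring
    rw [e3]
    linarith

theorem ws_cwM_aux (y : Fin n) (ys : List (Fin n)) (hnd : (y :: ys).Nodup) (M : ℕ) :
    ∀ h : List (Fin n), M * Lg ys.length ≤
      wsumF (y :: h) (List.replicate M (cw y ys)).flatten := by
  induction M with
  | zero => intro h; simp [wsumF]
  | succ M ih =>
    intro h
    rw [List.replicate_succ, List.flatten_cons, wsumF_append]
    obtain ⟨h', hh⟩ := cw_head ys y h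
    rw [hh]
    have h1 := ws_cw ys y h hnd
    have h2 := ih h'
    push_cast
    linarith

theorem ws_cwM (y : Fin n) (ys : List (Fin n)) (hnd : (y :: ys).Nodup) (M : ℕ)
    (Z : List (Fin n)) : M * Lg ys.length ≤ wsumF [] (cwM y ys M ++ Z) := by
  rw [wsumF_append]
  have h1 := wsumF_nonneg Z ((cwM y ys M).reverse ++ [])
  have h2 := ws_cwM_aux y ys hnd M []
  have h3 : 0 ≤ Real.logb 2 ((wsF ([] : List (Fin n)) y : ℝ) + 1) := by
    apply Real.logb_nonneg (by norm_num)
    have : (0 : ℝ) ≤ wsF ([] : List (Fin n)) y := Nat.cast_nonneg _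
    linarith
  have h4 : wsumF [] (cwM y ys M) = Real.logb 2 ((wsF ([] : List (Fin n)) y : ℝ) + 1) +
      wsumF [y] (List.replicate M (cw y ys)).flatten := by
    simp [cwM, wsumF]
  rw [h4]
  linarith

theorem Lg_ge (k : ℕ) : (2 : ℝ) ^ k * k ≤ Lg (2 ^ (k + 1)) := by
  unfold Lg
  have h1 : ∑ i ∈ Finset.Ico (2 ^ k) (2 ^ (k + 1)), (k : ℝ) ≤
      ∑ i ∈ Finset.range (2 ^ (k + 1)), Real.logb 2 ((i : ℝ) + 2) := by
    calc ∑ i ∈ Finset.Ico (2 ^ k) (2 ^ (k + 1)), (k : ℝ) ≤
        ∑ i ∈ Finset.Ico (2 ^ k) (2 ^ (k + 1)), Real.logb 2 (((i : ℕ) : ℝ) + 2) := by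
          refine Finset.sum_le_sum fun i hi => ?_
          rw [Finset.mem_Ico] at hi
          rw [Real.le_logb_iff_rpow_le (by norm_num) (by positivity), Real.rpow_natCast]
          have : ((2 ^ k : ℕ) : ℝ) ≤ (i : ℝ) := by exact_mod_cast hi.1
          push_cast at this
          linarith
      _ ≤ ∑ i ∈ Finset.range (2 ^ (k + 1)), Real.logb 2 ((i : ℝ) + 2) := by
          refine Finset.sum_le_sum_of_subset_of_nonneg ?_ ?_
          · intro i hi
            rw [Finset.mem_Ico] at hi
            exact Finset.mem_range.2 hi.2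
          · intro i _ _
            apply Real.logb_nonneg (by norm_num)
            have : (0 : ℝ) ≤ i := Nat.cast_nonneg _
            linarith
  rw [Finset.sum_const, Nat.card_Ico, nsmul_eq_mul] at h1
  have h2 : 2 ^ (k + 1) - 2 ^ k = 2 ^ k := by rw [pow_succ]; omega
  rw [h2] at h1
  push_cast at h1
  exact h1

end Pool.Agent.Helper48.PW
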