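import Pool.Agent.N724.TW.Stm

set_option autoImplicit false

/-!
# Splay trees and pairwise uniform relabellings: definitions
-/

namespace Pool.Agent.Helper48.PW

/-- `S` is a pairwise uniform family of permutations of `n` keys: for `a ≠ b` and `a' ≠ b'` the number
of the `σ ∈ S` with `σ a = a'` and `σ b = b'` is `|S| / (n (n - 1))`. -/
def Uni2 {n : ℕ} (S : Finset (Equiv.Perm (Fin n))) : Prop :=
  ∀ a b a' b' : Fin n, a ≠ b → a' ≠ b' →
    (S.filter fun σ => σ a = a' ∧ σ b = b').card * (n * (n - 1)) = S.card

/-- `S` is a one-wise uniform family of permutations of `n` keys: for all `a`, `a'` the number of the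
`σ ∈ S` with `σ a = a'` is `|S| / n`. -/
def Uni1 {n : ℕ} (S : Finset (Equiv.Perm (Fin n))) : Prop :=
  ∀ a a' : Fin n, (S.filter fun σ => σ a = a').card * n = S.card

end Pool.Agent.Helper48.PW
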