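import Pool.Agent.Helper48.PW.Comb

set_option autoImplicit false

/-!
# The number of relabellings needed: at least and at most a constant times `log n`
-/

namespace Pool.Agent.Helper48.PW

open Pool.Agent.H581R2.Splay Pool.Agent.TH49.Spl Pool.Agent.N724.TW Pool.Agent.Y395.SP

theorem logb_le_self (n : ℕ) : Real.logb 2 n ≤ n := by
  rcases Nat.eq_zero_or_pos n with rfl | hn
  · simp
  · rw [Real.logb_le_iff_le_rpow (by norm_num) (by exact_mod_cast hn), Real.rpow_natCast]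
    exact_mod_cast (Nat.lt_two_pow_self (n := n)).le

/-- **`O(log n)` relabellings suffice.** -/
theorem upper (hV : S_VAL) (hI : S_INV) (n : ℕ) (hn : 2 ≤ n) (δ : ℝ) (hδ : 0 < δ) (hδ1 : δ ≤ 1) :
    ∃ (K : ℕ) (f : Fin K → Equiv.Perm (Fin n)), 1 ≤ K ∧ (K : ℝ) ≤ 90 / δ * Real.logb 2 n ∧
      ∀ X : List (Fin n), ∃ B : Finset (Fin K), (B.card : ℝ) ≤ δ * K ∧
        ∀ j : Fin K, j ∉ B → ∀ (ρ : Equiv.Perm (Fin n)) (T : Tr), keys T = List.range n →
          (costSplay T (rel ρ X) : ℝ) ≤ (4360 * optAny (List.range n) (rel (f j) X) +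
            1120 * (n * Real.logb 2 n)) / δ ∧
          ((∀ x : Fin n, x ∈ X) → (costSplay T (rel ρ X) : ℝ) ≤
            11880 / δ * optAny (List.range n) (rel (f j) X)) := by
  obtain ⟨a, ha⟩ : ∃ a : ℕ, a = ⌈4 / δ⌉₊ := ⟨_, rfl⟩
  have h1 : 4 / δ ≤ a := by rw [ha]; exact Nat.le_ceil _
  have h2 : (a : ℝ) < 4 / δ + 1 := by rw [ha]; exact Nat.ceil_lt_add_one (by positivity)
  have h3 : (1 : ℝ) ≤ 1 / δ := by rw [le_div_iff₀ hδ]; linarith
  have h4 : (a : ℝ) ≤ 5 / δ := by
    have : 5 / δ = 4 / δ + 1 / δ := by ring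
    linarith
  have h5 : 1 ≤ a := by
    have h6 : (1 : ℝ) ≤ a := by
      have : 4 / δ = 4 * (1 / δ) := by ring
      linarith
    exact_mod_cast h6
  obtain ⟨f, hf⟩ := exists_spread hn h5
  have hnR : (2 : ℝ) ≤ n := by exact_mod_cast hn
  have hlog1 : (1 : ℝ) ≤ Real.logb 2 n := by
    rw [Real.le_logb_iff_rpow_le (by norm_num) (by positivity)]
    simpa using hnR
  have hnl : 0 ≤ n * Real.logb 2 n := by positivity
  refine ⟨9 * a * (Nat.log 2 n + 1), f, ?_, ?_, fun X => ?_⟩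
  · exact Nat.mul_pos (Nat.mul_pos (by norm_num) h5) (Nat.succ_pos _)
  · have h6 : ((Nat.log 2 n : ℕ) : ℝ) ≤ Real.logb 2 n := by
      rw [Real.le_logb_iff_rpow_le (by norm_num) (by positivity), Real.rpow_natCast]
      exact_mod_cast Nat.pow_log_le_self 2 (by omega)
    push_cast
    have h7 : ((Nat.log 2 n : ℕ) : ℝ) + 1 ≤ 2 * Real.logb 2 n := by linarith
    have h8 : (9 * (a : ℝ)) * (((Nat.log 2 n : ℕ) : ℝ) + 1) ≤ (9 * a) * (2 * Real.logb 2 n) :=
      mul_le_mul_of_nonneg_left h7 (by positivity)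
    have h9 : (a : ℝ) * Real.logb 2 n ≤ 5 / δ * Real.logb 2 n :=
      mul_le_mul_of_nonneg_right h4 (by linarith)
    have h10 : 90 / δ * Real.logb 2 n = 18 * (5 / δ * Real.logb 2 n) := by ring
    rw [h10]
    linarith
  · obtain ⟨B, b1, b2⟩ := main_spread hV hI (c := 4 * a) (by omega) hf X
    refine ⟨B, ?_, fun j hj ρ T hT => ?_⟩
    · have h6 : (a : ℝ) * B.card ≤ 4 * ((9 * a * (Nat.log 2 n + 1) : ℕ) : ℝ) := by
        exact_mod_cast b1
      have h7 : 4 / δ * B.card ≤ 4 * ((9 * a * (Nat.log 2 n + 1) : ℕ) : ℝ) :=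
        (mul_le_mul_of_nonneg_right h1 (Nat.cast_nonneg _)).trans h6
      have h8 : 4 / δ * (B.card : ℝ) = 4 * (B.card / δ) := by ring
      rw [h8] at h7
      have h9 : (B.card : ℝ) / δ ≤ ((9 * a * (Nat.log 2 n + 1) : ℕ) : ℝ) := by linarith
      rw [div_le_iff₀ hδ] at h9
      linarith
    · obtain ⟨g1, g2, -⟩ := b2 j hj ρ T hT
      have hO : (0 : ℝ) ≤ optAny (List.range n) (rel (f j) X) := Nat.cast_nonneg _
      have e1 := mul_le_mul_of_nonneg_right h4 hO
      have e2 := mul_le_mul_of_nonneg_right h4 hnl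
      constructor
      · refine g1.trans ?_
        have e3 : (4360 * (optAny (List.range n) (rel (f j) X) : ℝ) +
            1120 * (n * Real.logb 2 n)) / δ =
            872 * (5 / δ * optAny (List.range n) (rel (f j) X)) +
              224 * (5 / δ * (n * Real.logb 2 n)) := by
          ring
        rw [e3]
        push_cast
        linarith
      · intro hall
        refine (g2 hall).trans ?_
        have e3 : 11880 / δ * (optAny (List.range n) (rel (f j) X) : ℝ) =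
            2376 * (5 / δ * optAny (List.range n) (rel (f j) X)) := by
          ring
        rw [e3]
        push_cast
        linarith

/-- a relabelling which makes the requests expensive -/
theorem exists_hard (hV : S_VAL) (hI : S_INV) (n : ℕ) (hn : 2 ≤ n) (X : List (Fin n)) :
    ∃ ρ : Equiv.Perm (Fin n), ∀ T : Tr, keys T = List.range n →
      wsumF [] X ≤ 1400 * costSplay T (rel ρ X) + 160 * (n * Real.logb 2 n) := by
  obtain ⟨f, hf⟩ := exists_spread (n := n) hn (a := 5) (by norm_num)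
  obtain ⟨B, b1, b2⟩ := main_spread hV hI (c := 4 * 5) (by norm_num) hf X
  obtain ⟨j, hj⟩ : ∃ j, j ∉ B := by
    by_contra hcon
    push Not at hcon
    have h1 : B = Finset.univ := Finset.eq_univ_iff_forall.2 hcon
    rw [h1, Finset.card_univ, Fintype.card_fin] at b1
    omega
  refine ⟨f j, fun T hT => ?_⟩
  obtain ⟨-, -, h2⟩ := b2 j hj (f j) T hT
  have h5 : (optAny (List.range n) (rel (f j) X) : ℝ) ≤ 2 * costSplay T (rel (f j) X) := by
    obtain ⟨c, hc, hE⟩ := R531.Spl.serve (rel (f j) X) (T := T) (bst_range hT)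
      (fun x hx => by rw [hT, List.mem_range]; exact rel_mem (f j) _ x hx)
    have h6 : optAny (List.range n) (rel (f j) X) ≤ c := Nat.sInf_le ⟨T, hT, hE.exec⟩
    exact_mod_cast h6.trans hc
  push_cast at h2
  linarith

/-- a comb is served cheaply -/
theorem opt_comb {n : ℕ} (σ : Equiv.Perm (Fin n)) (x : Fin n) (xs : List (Fin n))
    (h : Cmb ((x :: xs).map fun z => (σ z : ℕ))) (M : ℕ) (Z : List (Fin n)) :
    optAny (List.range n) (rel σ (cwM x xs M ++ Z)) ≤
      2 * (24 * (1 + 2 * M * xs.length) + (n + 1) * Z.length) := by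
  have h1 : ∀ z ∈ ((x :: xs).map fun z => (σ z : ℕ)), z < n := by
    intro z hz
    rw [List.mem_map] at hz
    obtain ⟨w, -, rfl⟩ := hz
    exact (σ w).2
  rw [List.map_cons] at h h1
  have hT := bst_ct h1 h
  obtain ⟨T, hTd⟩ : ∃ T, T = ct 0 n ((σ x : ℕ) :: xs.map fun z => (σ z : ℕ)) := ⟨_, rfl⟩
  rw [← hTd] at hT
  have h2 := cost_cwM h1 h M
  rw [← hTd, List.length_map] at h2
  have e1 : rel σ (cwM x xs M ++ Z) = cwM (σ x : ℕ) (xs.map fun z => (σ z : ℕ)) M ++ rel σ Z := by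
    unfold rel cwM
    rw [List.map_append, List.map_cons, List.map_flatten, List.map_replicate, cw_map]
  have hmem : ∀ z ∈ rel σ (cwM x xs M ++ Z), z < n := rel_mem σ _
  obtain ⟨c, hc, hE⟩ := R531.Spl.serve (rel σ (cwM x xs M ++ Z)) (T := T) (bst_range hT)
    (fun z hz => by rw [hT, List.mem_range]; exact hmem z hz)
  have h3 : optAny (List.range n) (rel σ (cwM x xs M ++ Z)) ≤ c := Nat.sInf_le ⟨T, hT, hE.exec⟩
  have h4 := cost_append_le (cwM (σ x : ℕ) (xs.map fun z => (σ z : ℕ)) M) (rel σ Z) T hT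
    (by rw [← e1]; exact hmem)
  rw [← e1] at h4
  have h5 : (rel σ Z).length = Z.length := by simp [rel]
  rw [h5] at h4
  omega

/-- **Fewer than `c log n` relabellings never suffice.** -/
theorem lower (hV : S_VAL) (hI : S_INV) (C : ℝ) : ∃ c : ℝ, 0 < c ∧ ∀ n K : ℕ,
    (K : ℝ) ≤ c * Real.logb 2 n → ∀ f : Fin K → Equiv.Perm (Fin n),
      ∃ (X : List (Fin n)) (ρ : Equiv.Perm (Fin n)), (∀ x : Fin n, x ∈ X) ∧
        ∀ T : Tr, keys T = List.range n → ∀ j : Fin K,
          C * (optAny (List.range n) (rel (f j) X) + n * Real.logb 2 n) <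
            costSplay T (rel ρ X) := by
  obtain ⟨C1, hC1⟩ : ∃ C1 : ℕ, C ≤ C1 := exists_nat_ge C
  obtain ⟨C0, hC0⟩ : ∃ C0 : ℕ, C0 = C1 + 1 := ⟨_, rfl⟩
  obtain ⟨k, hk⟩ : ∃ k : ℕ, k = 2800 * 97 * C0 := ⟨_, rfl⟩
  obtain ⟨m, hm⟩ : ∃ m : ℕ, m = 2 ^ (k + 1) := ⟨_, rfl⟩
  have hm1 : 1 ≤ m := by rw [hm]; exact Nat.one_le_two_pow
  have hmR : (1 : ℝ) ≤ m := by exact_mod_cast hm1
  refine ⟨1 / (2 * m), by positivity, fun n K hK f => ?_⟩
  rcases Nat.eq_zero_or_pos K with rfl | hK0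
  · exact ⟨List.finRange n, 1, fun x => List.mem_finRange x, fun T _ j => j.elim0⟩
  have hKR : (1 : ℝ) ≤ K := by exact_mod_cast hK0
  have h1 : ((K + 1) * m : ℝ) ≤ Real.logb 2 n := by
    have h2 : (K : ℝ) * (2 * m) ≤ Real.logb 2 n := by
      have := mul_le_mul_of_nonneg_right hK (show (0 : ℝ) ≤ 2 * m by positivity)
      have e : 1 / (2 * (m : ℝ)) * Real.logb 2 n * (2 * m) = Real.logb 2 n := by
        field_simp
      rw [e] at this
      exact this
    nlinarith
  have hn0 : 0 < n := by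
    rcases Nat.eq_zero_or_pos n with rfl | h
    · simp only [CharP.cast_eq_zero, Real.logb_zero] at h1
      have : (0 : ℝ) < (K + 1) * m := by positivity
      linarith
    · exact h
  have h2 : 2 ^ ((K + 1) * m) ≤ n := by
    have h3 : ((2 : ℝ)) ^ (((K + 1) * m : ℕ) : ℝ) ≤ n := by
      rw [← Real.le_logb_iff_rpow_le (by norm_num) (by exact_mod_cast hn0)]
      push_cast
      exact h1
    rw [Real.rpow_natCast] at h3
    exact_mod_cast h3
  have hn : 2 ≤ n := by
    have h3 : 1 ≤ (K + 1) * m := Nat.mul_pos (Nat.succ_pos _) hm1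
    calc 2 = 2 ^ 1 := rfl
      _ ≤ 2 ^ ((K + 1) * m) := Nat.pow_le_pow_right (by norm_num) h3
      _ ≤ n := h2
  obtain ⟨x, xs, g1, g2, -, g4⟩ := comb_exists f m Finset.univ (by
    rw [Finset.card_univ, Fintype.card_fin]; exact h2)
  obtain ⟨M, hM⟩ : ∃ M : ℕ, M = 49 + 2 * n * (n + 1) + 2 * n * n := ⟨_, rfl⟩
  obtain ⟨X, hX⟩ : ∃ X : List (Fin n), X = cwM x xs M ++ List.finRange n := ⟨_, rfl⟩
  obtain ⟨ρ, hρ⟩ := exists_hard hV hI n hn X
  refine ⟨X, ρ, fun z => ?_, fun T hT j => ?_⟩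
  · rw [hX, List.mem_append]
    exact Or.inr (List.mem_finRange z)
  have h3 := hρ T hT
  have h4 := ws_cwM x xs g2 M (List.finRange n)
  rw [← hX, g1] at h4
  have h5 := Lg_ge k
  rw [← hm] at h5
  have h6 := opt_comb (f j) x xs (g4 j) M (List.finRange n)
  rw [← hX, g1, List.length_finRange] at h6
  have h6R : (optAny (List.range n) (rel (f j) X) : ℝ) ≤
      2 * (24 * (1 + 2 * M * m) + (n + 1) * n) := by exact_mod_cast h6
  have hmk : (m : ℝ) = 2 * 2 ^ k := by rw [hm, pow_succ]; push_cast; ring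
  have hkR : (k : ℝ) = 2800 * 97 * C0 := by rw [hk]; push_cast; ring
  have hC0R : (C0 : ℝ) = C1 + 1 := by rw [hC0]; push_cast; ring
  have hC0' : (1 : ℝ) ≤ C0 := by
    rw [hC0R]
    have : (0 : ℝ) ≤ C1 := Nat.cast_nonneg _
    linarith
  have hCC : C ≤ C0 := by rw [hC0R]; linarith
  have hMR : (M : ℝ) = 49 + 2 * n * (n + 1) + 2 * n * n := by rw [hM]; push_cast; ring
  have hnR : (0 : ℝ) ≤ n := Nat.cast_nonneg _
  have hlog := logb_le_self n
  have hlog0 : 0 ≤ Real.logb 2 n := Real.logb_nonneg (by norm_num) (by exact_mod_cast hn0)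
  have hnl : n * Real.logb 2 n ≤ n * n := mul_le_mul_of_nonneg_left hlog hnR
  have hnl0 : 0 ≤ n * Real.logb 2 n := by positivity
  have hMpos : (0 : ℝ) ≤ M := Nat.cast_nonneg _
  -- the working set bound
  have e1 : 1400 * 97 * (C0 : ℝ) * (M * m) ≤ wsumF [] X := by
    refine le_trans (le_of_eq ?_) ((mul_le_mul_of_nonneg_left h5 hMpos).trans h4)
    rw [hkR, hmk]
    ring
  have e2 : 1400 * 97 * (C0 : ℝ) * (M * m) ≤
      1400 * (costSplay T (rel ρ X) : ℝ) + 160 * ((n : ℝ) * n) := by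
    linarith
  -- the optimum
  have e3 : C * (optAny (List.range n) (rel (f j) X) + n * Real.logb 2 n) ≤
      C0 * (2 * (24 * (1 + 2 * M * m) + (n + 1) * n) + n * n) := by
    have q1 : (0 : ℝ) ≤ optAny (List.range n) (rel (f j) X) + n * Real.logb 2 n := by positivity
    calc C * (optAny (List.range n) (rel (f j) X) + n * Real.logb 2 n) ≤
        C0 * (optAny (List.range n) (rel (f j) X) + n * Real.logb 2 n) :=
          mul_le_mul_of_nonneg_right hCC q1
      _ ≤ _ := mul_le_mul_of_nonneg_left (by linarith) (by linarith)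
  refine lt_of_le_of_lt e3 ?_
  have e4 : (M : ℝ) ≤ M * m := by nlinarith
  have e5 : 1400 * ((C0 : ℝ) * (2 * (24 * (1 + 2 * M * m) + (n + 1) * n) + n * n)) +
      160 * ((n : ℝ) * n) < 1400 * 97 * (C0 : ℝ) * (M * m) := by
    have q1 : 1400 * ((C0 : ℝ) * (2 * (24 * (1 + 2 * M * m) + (n + 1) * n) + n * n)) =
        1400 * 96 * C0 * (M * m) + 1400 * C0 * (48 + 2 * n * (n + 1) + n * n) := by ring
    have q2 : 1400 * (C0 : ℝ) * (48 + 2 * n * (n + 1) + n * n) + 160 * (n * n) <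
        1400 * C0 * M := by
      rw [hMR]
      have q3 : (160 : ℝ) * (n * n) ≤ 1400 * C0 * (n * n) :=
        mul_le_mul_of_nonneg_right (by linarith) (by positivity)
      nlinarith
    have q4 : 1400 * (C0 : ℝ) * M ≤ 1400 * C0 * (M * m) :=
      mul_le_mul_of_nonneg_left e4 (by positivity)
    rw [q1]
    linarith
  linarith

end Pool.Agent.Helper48.PW
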