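import Pool.Agent.Helper48.PW.Spread

set_option autoImplicit false

/-!
# Random relabellings
-/

namespace Pool.Agent.Helper48.PW

variable {n : ℕ}

open Classical in
/-- the permutations under which the keys `Q` miss the places `J` -/
noncomputable def UJ (Q J : Finset (Fin n)) : Finset (Equiv.Perm (Fin n)) :=
  Finset.univ.filter fun σ => ∀ q ∈ Q, σ q ∉ J

theorem mem_UJ {Q J : Finset (Fin n)} {σ : Equiv.Perm (Fin n)} :
    σ ∈ UJ Q J ↔ ∀ q ∈ Q, σ q ∉ J := by
  simp [UJ]

theorem card_UJ (J Q : Finset (Fin n)) :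
    (UJ Q J).card * n ^ Q.card ≤ n.factorial * (n - J.card) ^ Q.card := by
  classical
  induction Q using Finset.induction_on with
  | empty =>
    have : UJ ∅ J = Finset.univ := by
      ext σ
      simp [mem_UJ]
    rw [this, Finset.card_univ, Fintype.card_perm, Fintype.card_fin]
    simp
  | insert q0 Q hq0 ih =>
    have h1 : UJ (insert q0 Q) J = (UJ Q J).filter fun σ => ¬ σ q0 ∈ J := by
      ext σ
      simp only [mem_UJ, Finset.mem_filter, Finset.mem_insert, forall_eq_or_imp]
      exact and_comm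
    have h2 : ((UJ Q J).filter fun σ => σ q0 ∈ J).card +
        ((UJ Q J).filter fun σ => ¬ σ q0 ∈ J).card = (UJ Q J).card :=
      Finset.card_filter_add_card_filter_not _
    have h3 : ∀ q : Fin n, ((UJ Q J).filter fun σ => σ q ∈ J).card ≤
        ((UJ Q J).filter fun σ => σ q0 ∈ J).card := by
      intro q
      by_cases hq : q ∈ Q
      · have : ((UJ Q J).filter fun σ => σ q ∈ J) = ∅ := by
          rw [Finset.filter_eq_empty_iff]
          intro σ hσ
          exact mem_UJ.1 hσ q hq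
        rw [this]
        simp
      · refine Finset.card_le_card_of_injOn (fun σ => σ * Equiv.swap q0 q) ?_ ?_
        · intro σ hσ
          rw [Finset.mem_coe, Finset.mem_filter, mem_UJ] at hσ
          rw [Finset.mem_coe, Finset.mem_filter, mem_UJ]
          refine ⟨fun q' hq' => ?_, ?_⟩
          · have e1 : q' ≠ q0 := fun h => hq0 (h ▸ hq')
            have e2 : q' ≠ q := fun h => hq (h ▸ hq')
            rw [Equiv.Perm.mul_apply, Equiv.swap_apply_of_ne_of_ne e1 e2]
            exact hσ.1 q' hq'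
          · rw [Equiv.Perm.mul_apply, Equiv.swap_apply_left]
            exact hσ.2
        · intro σ _ τ _ h
          exact mul_right_cancel h
    have h4 : ∑ q : Fin n, ((UJ Q J).filter fun σ => σ q ∈ J).card = (UJ Q J).card * J.card := by
      simp only [Finset.card_filter]
      rw [Finset.sum_comm]
      rw [Finset.sum_congr rfl (g := fun _ => J.card) (fun σ _ => ?_), Finset.sum_const, smul_eq_mul]
      rw [← Finset.card_filter]
      have : (Finset.univ.filter fun q : Fin n => σ q ∈ J) = J.map σ.symm.toEmbedding := by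
        ext q
        simp [Finset.mem_map_equiv]
      rw [this, Finset.card_map]
    have h5 : (UJ Q J).card * J.card ≤ n * ((UJ Q J).filter fun σ => σ q0 ∈ J).card := by
      rw [← h4]
      refine (Finset.sum_le_sum fun q _ => h3 q).trans ?_
      rw [Finset.sum_const, smul_eq_mul, Finset.card_univ, Fintype.card_fin]
    have h6 : ((UJ Q J).filter fun σ => ¬ σ q0 ∈ J).card * n ≤ (UJ Q J).card * (n - J.card) := by
      rw [Nat.mul_sub]
      have : ((UJ Q J).filter fun σ => ¬ σ q0 ∈ J).card * n =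
          (UJ Q J).card * n - n * ((UJ Q J).filter fun σ => σ q0 ∈ J).card := by
        rw [← h2, add_mul, mul_comm n]
        omega
      rw [this]
      omega
    rw [h1, Finset.card_insert_of_notMem hq0]
    calc ((UJ Q J).filter fun σ => ¬ σ q0 ∈ J).card * n ^ (Q.card + 1) =
        (((UJ Q J).filter fun σ => ¬ σ q0 ∈ J).card * n) * n ^ Q.card := by ring
      _ ≤ ((UJ Q J).card * (n - J.card)) * n ^ Q.card := Nat.mul_le_mul_right _ h6
      _ = ((UJ Q J).card * n ^ Q.card) * (n - J.card) := by ring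
      _ ≤ (n.factorial * (n - J.card) ^ Q.card) * (n - J.card) := Nat.mul_le_mul_right _ ih
      _ = _ := by ring

theorem UJ_real (hn : 0 < n) (Q J : Finset (Fin n)) (t : ℕ) (h : t * n ≤ Q.card * J.card) :
    ((UJ Q J).card : ℝ) ≤ n.factorial * (1 / 2 : ℝ) ^ t := by
  have hJ : J.card ≤ n := by
    have := Finset.card_le_univ J
    rwa [Fintype.card_fin] at this
  have hnR : (0 : ℝ) < n := by exact_mod_cast hn
  have h1 : ((UJ Q J).card : ℝ) * (n : ℝ) ^ Q.card ≤
      n.factorial * ((n : ℝ) - J.card) ^ Q.card := by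
    have := card_UJ J Q
    have h2 : (((UJ Q J).card * n ^ Q.card : ℕ) : ℝ) ≤
        ((n.factorial * (n - J.card) ^ Q.card : ℕ) : ℝ) := by exact_mod_cast this
    push_cast [Nat.cast_sub hJ] at h2
    exact h2
  have h2 : (n : ℝ) - J.card ≤ n * Real.exp (-((J.card : ℝ) / n)) := by
    have := Real.one_sub_le_exp_neg ((J.card : ℝ) / n)
    have h3 := mul_le_mul_of_nonneg_left this hnR.le
    have h4 : (n : ℝ) * (1 - J.card / n) = n - J.card := by field_simp
    rw [h4] at h3
    exact h3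
  have h0 : 0 ≤ (n : ℝ) - J.card := by
    have : (J.card : ℝ) ≤ n := by exact_mod_cast hJ
    linarith
  have h3 : ((n : ℝ) - J.card) ^ Q.card ≤ (n : ℝ) ^ Q.card * Real.exp (-(t : ℝ)) := by
    calc ((n : ℝ) - J.card) ^ Q.card ≤ (n * Real.exp (-((J.card : ℝ) / n))) ^ Q.card :=
          pow_le_pow_left₀ h0 h2 _
      _ = (n : ℝ) ^ Q.card * Real.exp (-((Q.card : ℝ) * ((J.card : ℝ) / n))) := by
          rw [mul_pow, ← Real.exp_nat_mul]
          congr 2
          ring
      _ ≤ (n : ℝ) ^ Q.card * Real.exp (-(t : ℝ)) := by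
          refine mul_le_mul_of_nonneg_left ?_ (by positivity)
          apply Real.exp_le_exp.2
          have : (t : ℝ) ≤ (Q.card : ℝ) * ((J.card : ℝ) / n) := by
            rw [← mul_div_assoc, le_div_iff₀ hnR]
            exact_mod_cast h
          linarith
  have h4 : Real.exp (-(t : ℝ)) ≤ (1 / 2 : ℝ) ^ t := by
    have h5 : Real.exp (-(1 : ℝ)) ≤ 1 / 2 := by
      rw [Real.exp_neg, one_div]
      apply inv_anti₀ (by norm_num)
      have := Real.add_one_le_exp (1 : ℝ)
      linarith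
    calc Real.exp (-(t : ℝ)) = Real.exp (-(1 : ℝ)) ^ t := by
          rw [← Real.exp_nat_mul]; congr 1; ring
      _ ≤ (1 / 2 : ℝ) ^ t := pow_le_pow_left₀ (Real.exp_pos _).le h5 _
  have h5 : (n : ℝ) ^ Q.card * ((UJ Q J).card : ℝ) ≤
      (n : ℝ) ^ Q.card * (n.factorial * (1 / 2 : ℝ) ^ t) := by
    calc (n : ℝ) ^ Q.card * ((UJ Q J).card : ℝ) = ((UJ Q J).card : ℝ) * (n : ℝ) ^ Q.card := by ring
      _ ≤ n.factorial * ((n : ℝ) - J.card) ^ Q.card := h1
      _ ≤ n.factorial * ((n : ℝ) ^ Q.card * Real.exp (-(t : ℝ))) :=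
          mul_le_mul_of_nonneg_left h3 (by positivity)
      _ ≤ n.factorial * ((n : ℝ) ^ Q.card * (1 / 2 : ℝ) ^ t) :=
          mul_le_mul_of_nonneg_left (mul_le_mul_of_nonneg_left h4 (by positivity)) (by positivity)
      _ = _ := by ring
  exact le_of_mul_le_mul_left h5 (by positivity)

/-! ### the halves of a level -/

theorem card_hp {e i : ℕ} (hi : i < Me n e) (b : Bool) : (hp n e i b).card = 2 ^ e := by
  have h := node_le hi
  have e1 : (i + 1) * (2 * 2 ^ e) = i * (2 * 2 ^ e) + 2 ^ e + 2 ^ e := by ring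
  unfold hp
  cases b
  · rw [if_neg (by simp), card_places h, e1, Nat.add_sub_cancel_left]
  · have h' : i * (2 * 2 ^ e) + 2 ^ e ≤ n := by
      rw [e1] at h
      exact (Nat.le_add_right _ _).trans h
    rw [if_pos rfl, card_places h', Nat.add_sub_cancel_left]

theorem hp_index {e i : ℕ} {b : Bool} {x : Fin n} (hx : x ∈ hp n e i b) :
    (x : ℕ) / 2 ^ e = 2 * i + (if b then 0 else 1) := by
  unfold hp at hx
  have e1 : i * (2 * 2 ^ e) = (2 * i) * 2 ^ e := by ring
  have e2 : (i + 1) * (2 * 2 ^ e) = (2 * i) * 2 ^ e + 2 ^ e + 2 ^ e := by ring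
  cases b
  · rw [if_neg (by simp), places, Finset.mem_filter, e1, e2] at hx
    simp only [Bool.false_eq_true, if_false]
    apply Nat.div_eq_of_lt_le
    · rw [add_mul, one_mul]; exact hx.2.1
    · rw [add_mul, add_mul, one_mul]; exact hx.2.2
  · rw [if_pos rfl, places, Finset.mem_filter, e1] at hx
    simp only [if_true, add_zero]
    apply Nat.div_eq_of_lt_le
    · exact hx.2.1
    · rw [add_mul, one_mul]; exact hx.2.2

theorem hp_disj {e i i' : ℕ} {b b' : Bool} {x : Fin n} (hx : x ∈ hp n e i b)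
    (hx' : x ∈ hp n e i' b') : i = i' ∧ b = b' := by
  have h1 := hp_index hx
  have h2 := hp_index hx'
  rw [h1] at h2
  cases b <;> cases b' <;> simp at h2 ⊢ <;> omega

theorem card_biUnion_hp {e : ℕ} (A : Finset (Fin (Me n e) × Bool)) :
    (A.biUnion fun t => hp n e t.1 t.2).card = A.card * 2 ^ e := by
  classical
  rw [Finset.card_biUnion]
  · rw [Finset.sum_congr rfl (fun t _ => card_hp t.1.2 t.2), Finset.sum_const, smul_eq_mul]
  · intro s _ t _ hst
    rw [Function.onFun, Finset.disjoint_left]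
    intro x h1 h2
    obtain ⟨h3, h4⟩ := hp_disj h1 h2
    exact hst (Prod.ext (Fin.ext h3) h4)

section
variable {K : ℕ}

open Classical in
/-- the families which miss all of `A` -/
noncomputable def FA (e : ℕ) (Q : Finset (Fin n)) (A : Finset (Fin K × (Fin (Me n e) × Bool))) :
    Finset (Fin K → Equiv.Perm (Fin n)) :=
  Finset.univ.filter fun f => ∀ t ∈ A, ∀ q ∈ Q, f t.1 q ∉ hp n e t.2.1 t.2.2

theorem card_FA (hn : 0 < n) {c e : ℕ} {Q : Finset (Fin n)} (hQ : Q.card = se c n e)
    (A : Finset (Fin K × (Fin (Me n e) × Bool))) :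
    ((FA e Q A).card : ℝ) ≤ (n.factorial : ℝ) ^ K * (1 / 2 : ℝ) ^ (c * A.card) := by
  classical
  obtain ⟨Aj, hAj⟩ : ∃ Aj : Fin K → Finset (Fin (Me n e) × Bool), Aj = fun j =>
    Finset.univ.filter fun t => (j, t) ∈ A := ⟨_, rfl⟩
  have h1 : FA e Q A = Fintype.piFinset fun j => UJ Q ((Aj j).biUnion fun t => hp n e t.1 t.2) := by
    ext f
    simp only [FA, Finset.mem_filter, Finset.mem_univ, true_and, Fintype.mem_piFinset, mem_UJ,
      Finset.mem_biUnion, hAj, not_exists, not_and]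
    constructor
    · intro h j q hq t ht
      exact h (j, t) ht q hq
    · intro h t ht q hq
      exact h t.1 q hq t.2 ht
  have h2 : ∀ j : Fin K, ((UJ Q ((Aj j).biUnion fun t => hp n e t.1 t.2)).card : ℝ) ≤
      n.factorial * (1 / 2 : ℝ) ^ (c * (Aj j).card) := by
    intro j
    apply UJ_real hn
    rw [card_biUnion_hp, hQ]
    calc c * (Aj j).card * n = (Aj j).card * (c * n) := by ring
      _ ≤ (Aj j).card * (se c n e * 2 ^ e) := Nat.mul_le_mul_left _ se_mul
      _ = _ := by ring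
  have h3 : ∑ j : Fin K, (Aj j).card = A.card := by
    have h4 : A.card = ∑ j : Fin K, (A.filter fun t => t.1 = j).card :=
      Finset.card_eq_sum_card_fiberwise (fun _ _ => Finset.mem_coe.2 (Finset.mem_univ _))
    rw [h4]
    refine Finset.sum_congr rfl fun j _ => ?_
    refine Finset.card_nbij' (fun t => (j, t)) (fun t => t.2) ?_ ?_ ?_ ?_
    · intro t ht
      rw [hAj, Finset.mem_coe, Finset.mem_filter] at ht
      rw [Finset.mem_coe, Finset.mem_filter]
      exact ⟨ht.2, rfl⟩
    · intro t ht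
      rw [Finset.mem_coe, Finset.mem_filter] at ht
      rw [hAj, Finset.mem_coe, Finset.mem_filter]
      refine ⟨Finset.mem_univ _, ?_⟩
      rw [← ht.2]
      exact ht.1
    · intro t _
      rfl
    · intro t ht
      rw [Finset.mem_coe, Finset.mem_filter] at ht
      rw [← ht.2]
  rw [h1, Fintype.card_piFinset]
  push_cast
  calc ∏ j : Fin K, ((UJ Q ((Aj j).biUnion fun t => hp n e t.1 t.2)).card : ℝ) ≤
      ∏ j : Fin K, (n.factorial * (1 / 2 : ℝ) ^ (c * (Aj j).card)) :=
        Finset.prod_le_prod (fun _ _ => Nat.cast_nonneg _) (fun j _ => h2 j)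
    _ = (n.factorial : ℝ) ^ K * (1 / 2 : ℝ) ^ (c * A.card) := by
        rw [Finset.prod_mul_distrib, Finset.prod_const, Finset.card_univ, Fintype.card_fin,
          Finset.prod_pow_eq_pow_sum, ← Finset.mul_sum, h3]

theorem TT_eq (f : Fin K → Equiv.Perm (Fin n)) (e : ℕ) (Q : Finset (Fin n)) :
    TT f e Q = (open Classical in (Finset.univ : Finset (Fin K × (Fin (Me n e) × Bool))).filter
      fun t => ∀ q ∈ Q, f t.1 q ∉ hp n e t.2.1 t.2.2).card := by
  classical
  unfold TT
  rw [Finset.card_filter, Fintype.sum_prod_type]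
  refine Finset.sum_congr rfl fun j _ => ?_
  rw [Fintype.sum_prod_type]

open Classical in
/-- the families which are bad for `Q` -/
noncomputable def BF (a : ℕ) (K : ℕ) (e : ℕ) (Q : Finset (Fin n)) :
    Finset (Fin K → Equiv.Perm (Fin n)) :=
  Finset.univ.filter fun f => K * Me n e < a * TT f e Q

theorem card_BF (hn : 0 < n) {a e : ℕ} {Q : Finset (Fin n)} (hQ : Q.card = se (4 * a) n e) :
    ((BF a K e Q).card : ℝ) ≤ (n.factorial : ℝ) ^ K * (1 / 2 : ℝ) ^ (2 * (K * Me n e)) := by
  classical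
  obtain ⟨N, hN⟩ : ∃ N, N = K * Me n e := ⟨_, rfl⟩
  have h1 : BF a K e Q ⊆ ((Finset.univ : Finset (Finset (Fin K × (Fin (Me n e) × Bool)))).filter
      fun A => N ≤ a * A.card).biUnion fun A => FA e Q A := by
    intro f hf
    rw [BF, Finset.mem_filter] at hf
    rw [Finset.mem_biUnion]
    refine ⟨Finset.univ.filter fun t => ∀ q ∈ Q, f t.1 q ∉ hp n e t.2.1 t.2.2, ?_, ?_⟩
    · rw [Finset.mem_filter]
      refine ⟨Finset.mem_univ _, ?_⟩
      have := TT_eq f e Q
      rw [hN]
      refine hf.2.le.trans (le_of_eq ?_)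
      rw [this]
    · rw [FA, Finset.mem_filter]
      refine ⟨Finset.mem_univ _, fun t ht => ?_⟩
      exact (Finset.mem_filter.1 ht).2
  have h2 : ((BF a K e Q).card : ℝ) ≤ ∑ A ∈ ((Finset.univ :
      Finset (Finset (Fin K × (Fin (Me n e) × Bool)))).filter fun A => N ≤ a * A.card),
        ((FA e Q A).card : ℝ) := by
    exact_mod_cast (Finset.card_le_card h1).trans Finset.card_biUnion_le
  have h3 : ∀ A ∈ ((Finset.univ : Finset (Finset (Fin K × (Fin (Me n e) × Bool)))).filter
      fun A => N ≤ a * A.card), ((FA e Q A).card : ℝ) ≤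
        (n.factorial : ℝ) ^ K * (1 / 2 : ℝ) ^ (4 * N) := by
    intro A hA
    rw [Finset.mem_filter] at hA
    refine (card_FA hn hQ A).trans (mul_le_mul_of_nonneg_left ?_ (by positivity))
    apply pow_le_pow_of_le_one (by norm_num) (by norm_num)
    calc 4 * N ≤ 4 * (a * A.card) := Nat.mul_le_mul_left _ hA.2
      _ = 4 * a * A.card := by ring
  have h4 : ((((Finset.univ : Finset (Finset (Fin K × (Fin (Me n e) × Bool)))).filter
      fun A => N ≤ a * A.card).card : ℕ) : ℝ) ≤ 2 ^ (2 * N) := by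
    have h5 := Finset.card_filter_le
      (Finset.univ : Finset (Finset (Fin K × (Fin (Me n e) × Bool)))) (fun A => N ≤ a * A.card)
    rw [Finset.card_univ, Fintype.card_finset, Fintype.card_prod, Fintype.card_prod,
      Fintype.card_fin, Fintype.card_fin, Fintype.card_bool] at h5
    have h6 : K * (Me n e * 2) = 2 * N := by rw [hN]; ring
    rw [h6] at h5
    exact_mod_cast h5
  refine h2.trans ((Finset.sum_le_sum h3).trans ?_)
  rw [Finset.sum_const, nsmul_eq_mul]
  calc _ ≤ (2 : ℝ) ^ (2 * N) * ((n.factorial : ℝ) ^ K * (1 / 2 : ℝ) ^ (4 * N)) :=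
        mul_le_mul_of_nonneg_right h4 (by positivity)
    _ = (n.factorial : ℝ) ^ K * ((2 : ℝ) ^ (2 * N) * (1 / 2 : ℝ) ^ (4 * N)) := by ring
    _ = (n.factorial : ℝ) ^ K * (1 / 2 : ℝ) ^ (2 * N) := by
        congr 1
        have : 4 * N = 2 * N + 2 * N := by ring
        rw [this, pow_add, ← mul_assoc, ← mul_pow]
        norm_num
    _ = _ := by rw [hN]

end

/-- **`9 a (⌊log₂ n⌋ + 1)` random relabellings are spreading.** -/
theorem exists_spread (hn : 2 ≤ n) {a : ℕ} (ha : 1 ≤ a) :
    ∃ f : Fin (9 * a * (Nat.log 2 n + 1)) → Equiv.Perm (Fin n), Spread a (4 * a) f := by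
  classical
  obtain ⟨L, hL⟩ : ∃ L, L = Nat.log 2 n + 1 := ⟨_, rfl⟩
  rw [← hL]
  obtain ⟨K, hK⟩ : ∃ K, K = 9 * a * L := ⟨_, rfl⟩
  rw [← hK]
  have hnL : n < 2 ^ L := by
    rw [hL]
    exact Nat.lt_pow_succ_log_self (by norm_num) _
  by_contra hcon
  push Not at hcon
  have h1 : (Finset.univ : Finset (Fin K → Equiv.Perm (Fin n))) ⊆ (EE n).biUnion fun e =>
      ((Finset.univ : Finset (Fin n)).powersetCard (se (4 * a) n e)).biUnion fun Q => BF a K e Q := by
    intro f _
    have h2 := hcon f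
    unfold Spread at h2
    push Not at h2
    obtain ⟨e, he, Q, hQ, h3⟩ := h2
    rw [Finset.mem_biUnion]
    refine ⟨e, he, ?_⟩
    rw [Finset.mem_biUnion]
    refine ⟨Q, Finset.mem_powersetCard.2 ⟨Finset.subset_univ _, hQ⟩, ?_⟩
    rw [BF, Finset.mem_filter]
    exact ⟨Finset.mem_univ _, h3⟩
  have h2 : ((Finset.univ : Finset (Fin K → Equiv.Perm (Fin n))).card : ℝ) ≤
      ∑ e ∈ EE n, ∑ Q ∈ (Finset.univ : Finset (Fin n)).powersetCard (se (4 * a) n e),
        ((BF a K e Q).card : ℝ) := by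
    have h3 := (Finset.card_le_card h1).trans Finset.card_biUnion_le
    have h4 := h3.trans (Finset.sum_le_sum fun e _ => Finset.card_biUnion_le)
    exact_mod_cast h4
  have hcard : ((Finset.univ : Finset (Fin K → Equiv.Perm (Fin n))).card : ℝ) =
      (n.factorial : ℝ) ^ K := by
    rw [Finset.card_univ, Fintype.card_fun, Fintype.card_perm, Fintype.card_fin, Fintype.card_fin]
    push_cast
    rfl
  have hF : (0 : ℝ) < (n.factorial : ℝ) ^ K := by positivity
  have h3 : ∀ e ∈ EE n, ∑ Q ∈ (Finset.univ : Finset (Fin n)).powersetCard (se (4 * a) n e),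
      ((BF a K e Q).card : ℝ) ≤ (n.factorial : ℝ) ^ K * (1 / 2 : ℝ) ^ (2 * L) := by
    intro e he
    have hM := Me_pos he
    have h4 : ∀ Q ∈ (Finset.univ : Finset (Fin n)).powersetCard (se (4 * a) n e),
        ((BF a K e Q).card : ℝ) ≤ (n.factorial : ℝ) ^ K * (1 / 2 : ℝ) ^ (2 * (K * Me n e)) :=
      fun Q hQ => card_BF (by omega) (Finset.mem_powersetCard.1 hQ).2
    refine (Finset.sum_le_sum h4).trans ?_
    rw [Finset.sum_const, nsmul_eq_mul, Finset.card_powersetCard, Finset.card_univ,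
      Fintype.card_fin]
    have h5 : (n.choose (se (4 * a) n e) : ℝ) ≤ 2 ^ (16 * a * L * Me n e) := by
      have h6 : n.choose (se (4 * a) n e) ≤ 2 ^ (16 * a * L * Me n e) := by
        calc n.choose (se (4 * a) n e) ≤ n ^ (se (4 * a) n e) := Nat.choose_le_pow _ _
          _ ≤ (2 ^ L) ^ (se (4 * a) n e) := Nat.pow_le_pow_left hnL.le _
          _ = 2 ^ (L * se (4 * a) n e) := by rw [← pow_mul]
          _ ≤ 2 ^ (16 * a * L * Me n e) := by
              apply Nat.pow_le_pow_right (by norm_num)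
              calc L * se (4 * a) n e ≤ L * (4 * (4 * a) * Me n e) :=
                    Nat.mul_le_mul_left _ (se_le he)
                _ = _ := by ring
      exact_mod_cast h6
    have h7 : 2 * (K * Me n e) = 16 * a * L * Me n e + 2 * a * L * Me n e := by rw [hK]; ring
    calc (n.choose (se (4 * a) n e) : ℝ) * ((n.factorial : ℝ) ^ K *
          (1 / 2 : ℝ) ^ (2 * (K * Me n e))) ≤
        (2 : ℝ) ^ (16 * a * L * Me n e) * ((n.factorial : ℝ) ^ K *
          (1 / 2 : ℝ) ^ (2 * (K * Me n e))) := mul_le_mul_of_nonneg_right h5 (by positivity)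
      _ = (n.factorial : ℝ) ^ K * (1 / 2 : ℝ) ^ (2 * a * L * Me n e) := by
          rw [h7, pow_add]
          have : (2 : ℝ) ^ (16 * a * L * Me n e) * (1 / 2 : ℝ) ^ (16 * a * L * Me n e) = 1 := by
            rw [← mul_pow]; norm_num
          calc (2 : ℝ) ^ (16 * a * L * Me n e) * ((n.factorial : ℝ) ^ K *
                ((1 / 2 : ℝ) ^ (16 * a * L * Me n e) * (1 / 2 : ℝ) ^ (2 * a * L * Me n e))) =
              (n.factorial : ℝ) ^ K * (((2 : ℝ) ^ (16 * a * L * Me n e) *
                (1 / 2 : ℝ) ^ (16 * a * L * Me n e)) * (1 / 2 : ℝ) ^ (2 * a * L * Me n e)) := by ring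
            _ = _ := by rw [this, one_mul]
      _ ≤ (n.factorial : ℝ) ^ K * (1 / 2 : ℝ) ^ (2 * L) := by
          refine mul_le_mul_of_nonneg_left ?_ hF.le
          apply pow_le_pow_of_le_one (by norm_num) (by norm_num)
          calc 2 * L = 2 * 1 * L * 1 := by ring
            _ ≤ 2 * a * L * Me n e :=
              Nat.mul_le_mul (Nat.mul_le_mul_right _ (Nat.mul_le_mul_left _ ha)) hM
  have h4 : (n.factorial : ℝ) ^ K ≤ (n : ℝ) * ((n.factorial : ℝ) ^ K * (1 / 2 : ℝ) ^ (2 * L)) := by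
    rw [← hcard]
    refine (h2.trans (Finset.sum_le_sum h3)).trans ?_
    rw [Finset.sum_const, nsmul_eq_mul, ← hcard]
    refine mul_le_mul_of_nonneg_right ?_ (by positivity)
    have : (EE n).card ≤ n := by
      unfold EE
      exact (Finset.card_filter_le _ _).trans (by rw [Finset.card_range])
    exact_mod_cast this
  have h5 : (n : ℝ) * (1 / 2 : ℝ) ^ (2 * L) < 1 := by
    have h6 : (n : ℝ) < 2 ^ L := by exact_mod_cast hnL
    have h7 : (1 : ℝ) ≤ 2 ^ L := one_le_pow₀ (by norm_num)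
    have h8 : (2 : ℝ) ^ L * (1 / 2 : ℝ) ^ L = 1 := by rw [← mul_pow]; norm_num
    have h9 : (1 / 2 : ℝ) ^ L ≤ 1 := pow_le_one₀ (by norm_num) (by norm_num)
    have h10 : (0 : ℝ) < (1 / 2 : ℝ) ^ L := by positivity
    calc (n : ℝ) * (1 / 2 : ℝ) ^ (2 * L) = (n * (1 / 2 : ℝ) ^ L) * (1 / 2 : ℝ) ^ L := by
          rw [two_mul, pow_add]; ring
      _ < ((2 : ℝ) ^ L * (1 / 2 : ℝ) ^ L) * (1 / 2 : ℝ) ^ L := by
          apply mul_lt_mul_of_pos_right _ h10
          exact mul_lt_mul_of_pos_right h6 h10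
      _ ≤ 1 := by rw [h8, one_mul]; exact h9
  have h6 : (n.factorial : ℝ) ^ K < (n.factorial : ℝ) ^ K := by
    calc (n.factorial : ℝ) ^ K ≤ (n : ℝ) * ((n.factorial : ℝ) ^ K * (1 / 2 : ℝ) ^ (2 * L)) := h4
      _ = (n.factorial : ℝ) ^ K * ((n : ℝ) * (1 / 2 : ℝ) ^ (2 * L)) := by ring
      _ < (n.factorial : ℝ) ^ K * 1 := mul_lt_mul_of_pos_left h5 hF
      _ = _ := mul_one _
  exact lt_irrefl _ h6

end Pool.Agent.Helper48.PW
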