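import Pool.Agent.Helper48.PW.Asm

set_option autoImplicit false

/-!
# Spreading families of relabellings
-/

namespace Pool.Agent.Helper48.PW

open Pool.Agent.H581R2.Splay Pool.Agent.TH49.Spl Pool.Agent.N724.TW Pool.Agent.Y395.SP

variable {n K : ℕ}

/-- the two halves of the node `i` of level `e` -/
def hp (n e i : ℕ) (b : Bool) : Finset (Fin n) :=
  if b then places n (i * (2 * 2 ^ e)) (i * (2 * 2 ^ e) + 2 ^ e)
  else places n (i * (2 * 2 ^ e) + 2 ^ e) ((i + 1) * (2 * 2 ^ e))

open Classical in
/-- number of the halves of level `e` missed by the keys `Q`, summed over the family -/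
noncomputable def TT (f : Fin K → Equiv.Perm (Fin n)) (e : ℕ) (Q : Finset (Fin n)) : ℕ :=
  ∑ j : Fin K, ∑ i : Fin (Me n e), ∑ b : Bool, if ∀ q ∈ Q, f j q ∉ hp n e i b then 1 else 0

/-- every set of `se c n e` keys misses, on the average over the family, at most `M / a` of the halves
of level `e`, where `M` is the number of nodes -/
def Spread (a c : ℕ) (f : Fin K → Equiv.Perm (Fin n)) : Prop :=
  ∀ e ∈ EE n, ∀ Q : Finset (Fin n), Q.card = se c n e → a * TT f e Q ≤ K * Me n e

open Classical in
theorem sum_hit (f : Fin K → Equiv.Perm (Fin n)) (e : ℕ) (p : List (Fin n) × List (Fin n)) :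
    ∑ j : Fin K, ∑ i ∈ Finset.range (Me n e), (if ¬ HitP (f j) (i * (2 * 2 ^ e))
      (i * (2 * 2 ^ e) + 2 ^ e) ((i + 1) * (2 * 2 ^ e)) p then 1 else 0) ≤
      TT f e p.1.toFinset + TT f e p.2.toFinset := by
  unfold TT
  rw [← Finset.sum_add_distrib]
  refine Finset.sum_le_sum fun j _ => ?_
  rw [← Finset.sum_add_distrib, Finset.sum_range]
  refine Finset.sum_le_sum fun i _ => ?_
  rw [Fintype.sum_bool, Fintype.sum_bool]
  by_cases h : HitP (f j) (i * (2 * 2 ^ e)) (i * (2 * 2 ^ e) + 2 ^ e) ((i + 1) * (2 * 2 ^ e)) p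
  · rw [if_neg (not_not.2 h)]
    exact Nat.zero_le _
  · rw [if_pos h]
    by_cases h1 : ∀ q ∈ p.1.toFinset, f j q ∉ hp n e i true
    · rw [if_pos h1]
      omega
    · by_cases h2 : ∀ q ∈ p.2.toFinset, f j q ∉ hp n e i false
      · rw [if_pos h2]
        omega
      · exfalso
        apply h
        push Not at h1 h2
        obtain ⟨x, hx, hx2⟩ := h1
        obtain ⟨y, hy, hy2⟩ := h2
        refine ⟨⟨x, List.mem_toFinset.1 hx, ?_⟩, ⟨y, List.mem_toFinset.1 hy, ?_⟩⟩
        · simpa [hp, places] using hx2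
        · simpa [hp, places] using hy2

section
variable (P : ℕ → List (List (Fin n) × List (Fin n)))

theorem sum_MM' {f : Fin K → Equiv.Perm (Fin n)} {a c : ℕ} (hf : Spread a c f)
    (hP : ∀ e ∈ EE n, ∀ p ∈ P e, p.1.toFinset.card = se c n e ∧ p.2.toFinset.card = se c n e) :
    a * ∑ j : Fin K, MM P (f j) ≤ 2 * K * Pot P := by
  classical
  unfold MM Pot
  rw [Finset.sum_comm, Finset.mul_sum, Finset.mul_sum]
  refine Finset.sum_le_sum fun e he => ?_
  have h1 : ∑ j : Fin K, ∑ i ∈ Finset.range (Me n e), ((P e).map fun p =>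
      if ¬ HitP (f j) (i * (2 * 2 ^ e)) (i * (2 * 2 ^ e) + 2 ^ e) ((i + 1) * (2 * 2 ^ e)) p
        then 1 else 0).sum = ((P e).map fun p => ∑ j : Fin K, ∑ i ∈ Finset.range (Me n e),
      if ¬ HitP (f j) (i * (2 * 2 ^ e)) (i * (2 * 2 ^ e) + 2 ^ e) ((i + 1) * (2 * 2 ^ e)) p
        then 1 else 0).sum := by
    rw [← sum_list_comm]
    refine Finset.sum_congr rfl fun j _ => ?_
    rw [← sum_list_comm]
  rw [h1]
  have h2 : ∀ L : List (List (Fin n) × List (Fin n)), (∀ p ∈ L, p.1.toFinset.card = se c n e ∧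
      p.2.toFinset.card = se c n e) → a * (L.map fun p => ∑ j : Fin K,
        ∑ i ∈ Finset.range (Me n e), if ¬ HitP (f j) (i * (2 * 2 ^ e)) (i * (2 * 2 ^ e) + 2 ^ e)
          ((i + 1) * (2 * 2 ^ e)) p then 1 else 0).sum ≤ 2 * K * (Me n e * L.length) := by
    intro L
    induction L with
    | nil => intro _; simp
    | cons p L ih =>
      intro hL
      have g1 := ih fun q hq => hL q (List.mem_cons_of_mem _ hq)
      obtain ⟨g2, g3⟩ := hL p (by simp)
      have g4 := hf e he _ g2
      have g5 := hf e he _ g3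
      have g6 := Nat.mul_le_mul_left a (sum_hit f e p)
      rw [mul_add] at g6
      rw [List.map_cons, List.sum_cons, List.length_cons, mul_add]
      have g7 : 2 * K * (Me n e * (L.length + 1)) = 2 * (K * Me n e) +
          2 * K * (Me n e * L.length) := by ring
      rw [g7]
      omega
  exact h2 (P e) (hP e he)

open Classical in
/-- the bad members -/
noncomputable def Bad' (f : Fin K → Equiv.Perm (Fin n)) : Finset (Fin K) :=
  Finset.univ.filter fun j => Pot P < 2 * MM P (f j)

theorem card_Bad' {f : Fin K → Equiv.Perm (Fin n)} {a c : ℕ} (hf : Spread a c f)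
    (hP : ∀ e ∈ EE n, ∀ p ∈ P e, p.1.toFinset.card = se c n e ∧ p.2.toFinset.card = se c n e) :
    a * (Bad' P f).card ≤ 4 * K := by
  classical
  rcases Nat.eq_zero_or_pos (Pot P) with h0 | h0
  · have : Bad' P f = ∅ := by
      unfold Bad'
      rw [Finset.filter_eq_empty_iff]
      intro j _
      have := HH_add_MM P (f j)
      omega
    rw [this]
    simp
  · have h1 := sum_MM' P hf hP
    have h2 : (Bad' P f).card * Pot P ≤ 2 * ∑ j : Fin K, MM P (f j) := by
      calc (Bad' P f).card * Pot P = ∑ j ∈ Bad' P f, Pot P := by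
            rw [Finset.sum_const, smul_eq_mul]
        _ ≤ ∑ j ∈ Bad' P f, 2 * MM P (f j) := by
            refine Finset.sum_le_sum fun j hj => ?_
            unfold Bad' at hj
            exact (Finset.mem_filter.1 hj).2.le
        _ ≤ ∑ j : Fin K, 2 * MM P (f j) := Finset.sum_le_sum_of_subset (Finset.subset_univ _)
        _ = 2 * ∑ j : Fin K, MM P (f j) := by rw [Finset.mul_sum]
    have h3 : (a * (Bad' P f).card) * Pot P ≤ (4 * K) * Pot P := by
      calc (a * (Bad' P f).card) * Pot P = a * ((Bad' P f).card * Pot P) := by ring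
        _ ≤ a * (2 * ∑ j : Fin K, MM P (f j)) := Nat.mul_le_mul_left _ h2
        _ = 2 * (a * ∑ j : Fin K, MM P (f j)) := by ring
        _ ≤ 2 * (2 * K * Pot P) := Nat.mul_le_mul_left _ h1
        _ = _ := by ring
    exact Nat.le_of_mul_le_mul_right h3 h0

end

/-- **All but a proportion `4 / a` of the members of a spreading family.** -/
theorem main_spread (hV : S_VAL) (hI : S_INV) {a c : ℕ} (hc : 1 ≤ c)
    {f : Fin K → Equiv.Perm (Fin n)} (hf : Spread a c f) (X : List (Fin n)) :
    ∃ B : Finset (Fin K), a * B.card ≤ 4 * K ∧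
      ∀ j : Fin K, j ∉ B → ∀ (ρ : Equiv.Perm (Fin n)) (T : Tr), keys T = List.range n →
        (costSplay T (rel ρ X) : ℝ) ≤ 218 * c * optAny (List.range n) (rel (f j) X) +
          56 * c * (n * Real.logb 2 n) ∧
        ((∀ x : Fin n, x ∈ X) → (costSplay T (rel ρ X) : ℝ) ≤
          594 * c * optAny (List.range n) (rel (f j) X)) ∧
        wsumF [] X ≤ 35 * c * optAny (List.range n) (rel (f j) X) +
          8 * c * (n * Real.logb 2 n) := by
  classical
  have hpairs : ∀ e : ℕ, ∃ (P : List (List (Fin n) × List (Fin n))) (R : List (Fin n)),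
      X = cc P ++ R ∧ (∀ p ∈ P, p.1.toFinset.card = se c n e ∧ p.2.toFinset.card = se c n e) ∧
      (∀ h, Ns (se c n e) h X ≤ 2 * se c n e * (P.length + 1)) ∧
      X.toFinset.card ≤ 2 * se c n e * (P.length + 1) := fun e =>
    pairs (se c n e) (by unfold se; exact Nat.mul_pos hc (Nat.succ_pos _)) X.length X le_rfl
  choose P R hX hP hN hF using hpairs
  refine ⟨Bad' P f, card_Bad' P hf (fun e _ => hP e), ?_⟩
  intro j hjB ρ T hT
  obtain ⟨σ, hσ⟩ : ∃ σ, σ = f j := ⟨_, rfl⟩
  rw [← hσ]
  have hcR : (1 : ℝ) ≤ c := by exact_mod_cast hc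
  have h1 : Pot P ≤ 2 * HH P σ := by
    have := HH_add_MM P σ
    unfold Bad' at hjB
    rw [Finset.mem_filter, not_and] at hjB
    have := hjB (Finset.mem_univ _)
    rw [← hσ] at this
    omega
  have h2 := HH_le_alt P σ X R (fun e _ => hX e)
  have h3 := alt_opt hV hT σ X
  have h4 := opt_len hT σ X
  have hPot : (Pot P : ℝ) ≤ 4 * optAny (List.range n) (rel σ X) := by
    have : ((Pot P : ℕ) : ℝ) ≤ ((2 * alt n (rel σ X) : ℕ) : ℝ) := by
      exact_mod_cast h1.trans (Nat.mul_le_mul_left 2 h2)
    push_cast at this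
    linarith
  have h5 : ∑ e ∈ EE n, Ns (se c n e) [] X ≤ 8 * c * Pot P + 2 * ∑ e ∈ EE n, se c n e := by
    calc ∑ e ∈ EE n, Ns (se c n e) [] X ≤
        ∑ e ∈ EE n, (8 * c * (Me n e * (P e).length) + 2 * se c n e) := by
          refine Finset.sum_le_sum fun e he => (hN e []).trans ?_
          have := Nat.mul_le_mul_right (2 * (P e).length) (se_le (c := c) he)
          calc 2 * se c n e * ((P e).length + 1) =
              se c n e * (2 * (P e).length) + 2 * se c n e := by ring
            _ ≤ 4 * c * Me n e * (2 * (P e).length) + 2 * se c n e := Nat.add_le_add_right this _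
            _ = _ := by ring
      _ = _ := by
          rw [Finset.sum_add_distrib, ← Finset.mul_sum, ← Finset.mul_sum]
          rfl
  have h6 := wsumF_le' c X []
  have h7 := cost_ws hI hT X ρ
  have hlog0 : 0 ≤ Real.logb 2 n := by
    rcases Nat.eq_zero_or_pos n with rfl | hn
    · simp
    · exact Real.logb_nonneg (by norm_num) (by exact_mod_cast hn)
  have hnlog : ((∑ e ∈ EE n, se c n e : ℕ) : ℝ) ≤ 4 * c * (n * Real.logb 2 n) := by
    rcases Nat.lt_or_ge n 2 with hn | hn
    · have h1 : EE n = ∅ := by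
        unfold EE
        rw [Finset.filter_eq_empty_iff]
        intro e _
        have : 1 ≤ 2 ^ e := Nat.one_le_two_pow
        omega
      rw [h1, Finset.sum_empty]
      push_cast
      positivity
    · have h8 : ((∑ e ∈ EE n, se c n e : ℕ) : ℝ) ≤ 4 * c * n := by
        exact_mod_cast sum_se_le c n
      have h9 : (1 : ℝ) ≤ Real.logb 2 n := by
        rw [Real.le_logb_iff_rpow_le (by norm_num) (by positivity)]
        simpa using (by exact_mod_cast hn : (2 : ℝ) ≤ n)
      have h10 : (n : ℝ) ≤ n * Real.logb 2 n := by nlinarith [(Nat.cast_nonneg n : (0 : ℝ) ≤ n)]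
      have h12 : (4 * c : ℝ) * n ≤ 4 * c * (n * Real.logb 2 n) :=
        mul_le_mul_of_nonneg_left h10 (by positivity)
      linarith
  have h5R : ((∑ e ∈ EE n, Ns (se c n e) [] X : ℕ) : ℝ) ≤
      8 * c * Pot P + 2 * ((∑ e ∈ EE n, se c n e : ℕ) : ℝ) := by exact_mod_cast h5
  have hOPT : (0 : ℝ) ≤ optAny (List.range n) (rel σ X) := Nat.cast_nonneg _
  have hlen : (0 : ℝ) ≤ X.length := Nat.cast_nonneg _
  have f1 : (c : ℝ) * Pot P ≤ c * (4 * optAny (List.range n) (rel σ X)) :=
    mul_le_mul_of_nonneg_left hPot (by positivity)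
  have f2 : (c : ℝ) * X.length ≤ c * optAny (List.range n) (rel σ X) :=
    mul_le_mul_of_nonneg_left h4 (by positivity)
  have f3 : (optAny (List.range n) (rel σ X) : ℝ) ≤ c * optAny (List.range n) (rel σ X) := by
    nlinarith
  have f4 : 0 ≤ n * Real.logb 2 n := by positivity
  have f5 : n * Real.logb 2 n ≤ c * (n * Real.logb 2 n) := by nlinarith
  refine ⟨?_, ?_, ?_⟩
  · nlinarith
  · intro hall
    have hcard : X.toFinset.card = n := by
      have : X.toFinset = Finset.univ := by
        ext x
        simp [hall x]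
      rw [this, Finset.card_univ, Fintype.card_fin]
    have hnlen : (n : ℝ) ≤ X.length := by
      have := List.toFinset_card_le X
      rw [hcard] at this
      exact_mod_cast this
    have h8 : (EE n).card * n ≤ 8 * c * Pot P + 8 * c * n := by
      calc (EE n).card * n = ∑ e ∈ EE n, n := by rw [Finset.sum_const, smul_eq_mul]
        _ ≤ ∑ e ∈ EE n, (8 * c * (Me n e * (P e).length) + 8 * c * Me n e) := by
            refine Finset.sum_le_sum fun e he => ?_
            have g1 := hF e
            rw [hcard] at g1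
            refine g1.trans ?_
            have := Nat.mul_le_mul_right (2 * ((P e).length + 1)) (se_le (c := c) he)
            calc 2 * se c n e * ((P e).length + 1) = se c n e * (2 * ((P e).length + 1)) := by ring
              _ ≤ 4 * c * Me n e * (2 * ((P e).length + 1)) := this
              _ = _ := by ring
        _ = 8 * c * Pot P + 8 * c * ∑ e ∈ EE n, Me n e := by
            rw [Finset.sum_add_distrib, ← Finset.mul_sum, ← Finset.mul_sum]
            rfl
        _ ≤ 8 * c * Pot P + 8 * c * n :=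
            Nat.add_le_add_left (Nat.mul_le_mul_left _ (sum_Me_le n)) _
    have h8R : ((EE n).card : ℝ) * n ≤ 8 * c * Pot P + 8 * c * n := by exact_mod_cast h8
    have h9 := log_le_card n
    have h10 : (n : ℝ) * Real.logb 2 n ≤ n * ((EE n).card + 1) :=
      mul_le_mul_of_nonneg_left h9 (by positivity)
    have h11 : ((∑ e ∈ EE n, se c n e : ℕ) : ℝ) ≤ 4 * c * n := by
      exact_mod_cast sum_se_le c n
    have e4 : (c : ℝ) * n ≤ c * optAny (List.range n) (rel σ X) :=
      mul_le_mul_of_nonneg_left (hnlen.trans h4) (by positivity)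
    nlinarith
  · nlinarith

end Pool.Agent.Helper48.PW
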