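import Pool.Agent.Helper48.PW.Defs

set_option autoImplicit false

/-!
# Pairs of windows with exactly `s` distinct keys each
-/

namespace Pool.Agent.Helper48.PW

open Pool.Agent.N724.TW

variable {n : ℕ}

/-- number of the requests with working set number at least `s` -/
def Ns (s : ℕ) : List (Fin n) → List (Fin n) → ℕ
  | _, [] => 0
  | h, x :: X => (if s ≤ wsF h x then 1 else 0) + Ns s (x :: h) X

theorem Ns_append (s : ℕ) (X Y : List (Fin n)) : ∀ h : List (Fin n),
    Ns s h (X ++ Y) = Ns s h X + Ns s (X.reverse ++ h) Y := by
  induction X with
  | nil => intro h; simp [Ns]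
  | cons x X ih =>
    intro h
    simp only [List.cons_append, Ns, ih, List.reverse_cons, List.append_assoc, List.nil_append]
    omega

theorem wsF_lt_of_mem {w h : List (Fin n)} {x : Fin n} (hx : x ∈ w) :
    wsF (w.reverse ++ h) x < w.toFinset.card := by
  unfold wsF
  have h1 : x ∈ w.reverse := List.mem_reverse.2 hx
  have h2 : ((w.reverse ++ h).takeWhile fun y => decide (y ≠ x)).toFinset ⊆
      w.toFinset.erase x := by
    intro y hy
    rw [List.mem_toFinset] at hy
    rw [Finset.mem_erase, List.mem_toFinset]
    have h3 := List.mem_takeWhile_imp hy
    simp only [ne_eq, decide_not, Bool.not_eq_eq_eq_not, Bool.not_true, decide_eq_false_iff_not] at h3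
    refine ⟨h3, ?_⟩
    have h4 : (w.reverse ++ h).takeWhile (fun y => decide (y ≠ x)) =
        w.reverse.takeWhile (fun y => decide (y ≠ x)) := by
      generalize w.reverse = v at h1
      induction v with
      | nil => simp at h1
      | cons a v ih =>
        rw [List.cons_append]
        by_cases ha : a = x
        · subst ha
          simp
        · rw [List.takeWhile_cons_of_pos (by simpa using ha),
            List.takeWhile_cons_of_pos (by simpa using ha)]
          rcases List.mem_cons.1 h1 with h5 | h5
          · exact absurd h5.symm ha
          · rw [ih h5]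
    rw [h4] at hy
    exact List.mem_reverse.1 ((List.takeWhile_prefix _).subset hy)
  have h3 := Finset.card_le_card h2
  have h4 : (w.toFinset.erase x).card < w.toFinset.card :=
    Finset.card_erase_lt_of_mem (List.mem_toFinset.2 hx)
  omega

/-- at most one request of each key in a window with at most `s` keys has working set number at
least `s` -/
theorem Ns_le_card (s : ℕ) (h : List (Fin n)) (w : List (Fin n)) :
    w.toFinset.card ≤ s → Ns s h w ≤ w.toFinset.card := by
  induction w using List.reverseRecOn with
  | nil => intro _; simp [Ns]
  | append_singleton w x ih =>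
    intro hs
    have h1 : w.toFinset ⊆ (w ++ [x]).toFinset := by
      intro y hy
      rw [List.mem_toFinset] at hy ⊢
      simp [hy]
    have h2 := Finset.card_le_card h1
    have h3 := ih (by omega)
    rw [Ns_append]
    simp only [Ns, add_zero]
    by_cases hx : x ∈ w
    · have h4 := wsF_lt_of_mem (h := h) hx
      rw [if_neg (by omega)]
      omega
    · have h4 : (w ++ [x]).toFinset = insert x w.toFinset := by
        ext y
        simp only [List.mem_toFinset, List.mem_append, List.mem_singleton, Finset.mem_insert]
        tauto
      have h5 : (insert x w.toFinset).card = w.toFinset.card + 1 :=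
        Finset.card_insert_of_notMem (by rwa [List.mem_toFinset])
      rw [h4, h5]
      split <;> omega

theorem exists_prefix (s : ℕ) (X : List (Fin n)) : s ≤ X.toFinset.card →
    ∃ w Y : List (Fin n), X = w ++ Y ∧ w.toFinset.card = s := by
  induction X using List.reverseRecOn with
  | nil =>
    intro h
    refine ⟨[], [], rfl, ?_⟩
    simp only [List.toFinset_nil, Finset.card_empty] at h ⊢
    omega
  | append_singleton X x ih =>
    intro h
    by_cases h1 : s ≤ X.toFinset.card
    · obtain ⟨w, Y, e1, e2⟩ := ih h1
      exact ⟨w, Y ++ [x], by rw [e1, List.append_assoc], e2⟩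
    · refine ⟨X ++ [x], [], by simp, ?_⟩
      have h2 : (X ++ [x]).toFinset ⊆ insert x X.toFinset := by
        intro y
        simp only [List.mem_toFinset, List.mem_append, List.mem_singleton, Finset.mem_insert]
        tauto
      have h3 := Finset.card_le_card h2
      have h4 := Finset.card_insert_le x X.toFinset
      omega

/-- the concatenation of the pairs -/
def cc (P : List (List (Fin n) × List (Fin n))) : List (Fin n) :=
  (P.map fun p => p.1 ++ p.2).flatten

theorem cc_cons (p : List (Fin n) × List (Fin n)) (P : List (List (Fin n) × List (Fin n))) :
    cc (p :: P) = p.1 ++ (p.2 ++ cc P) := by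
  simp [cc]

theorem toFinset_append_le (w Y : List (Fin n)) :
    (w ++ Y).toFinset.card ≤ w.toFinset.card + Y.toFinset.card := by
  rw [List.toFinset_append]
  exact Finset.card_union_le _ _

/-- **Decomposition into pairs of windows.** -/
theorem pairs (s : ℕ) (hs : 1 ≤ s) : ∀ (N : ℕ) (X : List (Fin n)), X.length ≤ N →
    ∃ (P : List (List (Fin n) × List (Fin n))) (R : List (Fin n)), X = cc P ++ R ∧
      (∀ p ∈ P, p.1.toFinset.card = s ∧ p.2.toFinset.card = s) ∧
      (∀ h, Ns s h X ≤ 2 * s * (P.length + 1)) ∧
      X.toFinset.card ≤ 2 * s * (P.length + 1) := by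
  intro N
  induction N with
  | zero =>
    intro X hX
    have : X = [] := List.length_eq_zero_iff.1 (by omega)
    subst this
    exact ⟨[], [], by simp [cc], by simp, by simp [Ns], by simp⟩
  | succ N ih =>
    intro X hX
    by_cases h1 : X.toFinset.card ≤ s
    · refine ⟨[], X, by simp [cc], by simp, fun h => ?_, ?_⟩
      · have := Ns_le_card s h X h1
        simp only [List.length_nil]
        omega
      · simp only [List.length_nil]
        omega
    · obtain ⟨w1, X1, e1, c1⟩ := exists_prefix s X (by omega)
      by_cases h2 : X1.toFinset.card ≤ s
      · refine ⟨[], X, by simp [cc], by simp, fun h => ?_, ?_⟩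
        · rw [e1, Ns_append]
          have q1 := Ns_le_card s h w1 c1.le
          have q2 := Ns_le_card s (w1.reverse ++ h) X1 h2
          simp only [List.length_nil]
          omega
        · rw [e1]
          have := toFinset_append_le w1 X1
          simp only [List.length_nil]
          omega
      · obtain ⟨w2, X2, e2, c2⟩ := exists_prefix s X1 (by omega)
        have hw1 : w1 ≠ [] := by
          rintro rfl
          simp at c1
          omega
        have hl : X2.length ≤ N := by
          have := List.length_pos_iff.2 hw1
          rw [e1, e2] at hX
          simp only [List.length_append] at hX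
          omega
        obtain ⟨P, R, p1, p2, p3, p4⟩ := ih X2 hl
        refine ⟨(w1, w2) :: P, R, ?_, ?_, fun h => ?_, ?_⟩
        · rw [e1, e2, cc_cons, p1]
          simp
        · intro p hp
          rcases List.mem_cons.1 hp with h3 | h3
          · rw [h3]; exact ⟨c1, c2⟩
          · exact p2 p h3
        · rw [e1, e2, Ns_append, Ns_append]
          have q1 := Ns_le_card s h w1 c1.le
          have q2 := Ns_le_card s (w1.reverse ++ h) w2 c2.le
          have q3 := p3 (w2.reverse ++ (w1.reverse ++ h))
          rw [List.length_cons]
          have e : 2 * s * (P.length + 1 + 1) = 2 * s * (P.length + 1) + 2 * s := by ring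
          omega
        · rw [e1, e2]
          have q1 := toFinset_append_le w1 (w2 ++ X2)
          have q2 := toFinset_append_le w2 X2
          rw [List.length_cons]
          have e : 2 * s * (P.length + 1 + 1) = 2 * s * (P.length + 1) + 2 * s := by ring
          omega

end Pool.Agent.Helper48.PW
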